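import Mathlib

/-!
# Rational matrices of finite order
-/

set_option autoImplicit false

namespace Pool.Agent.E8helper76.UB

open Polynomial

theorem dvd_fact {d g : ℕ} (hd : 0 < d) (h : Nat.totient d ≤ g) : d ∣ (2 * g).factorial := by
  rw [Nat.dvd_iff_prime_pow_dvd_dvd]
  intro p a hp hpa
  rcases Nat.eq_zero_or_pos a with rfl | ha
  · simp
  · have h1 : Nat.totient (p ^ a) ∣ Nat.totient d := Nat.totient_dvd_of_dvd hpa
    have h2 : Nat.totient (p ^ a) ≤ g := (Nat.le_of_dvd (Nat.totient_pos.2 hd) h1).trans h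
    rw [Nat.totient_prime_pow hp ha] at h2
    have h3 : p ^ a ≤ 2 * g := by
      obtain ⟨b, rfl⟩ : ∃ b, a = b + 1 := ⟨a - 1, by omega⟩
      rw [Nat.add_sub_cancel] at h2
      have h4 : p ≤ 2 * (p - 1) := by
        have := hp.two_le
        omega
      calc p ^ (b + 1) = p ^ b * p := pow_succ _ _
        _ ≤ p ^ b * (2 * (p - 1)) := Nat.mul_le_mul_left _ h4
        _ = 2 * (p ^ b * (p - 1)) := by ring
        _ ≤ 2 * g := Nat.mul_le_mul_left _ h2
    exact Nat.dvd_factorial (pow_pos hp.pos a) h3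

/-- a rational matrix of finite order -/
theorem mat_pow {g : ℕ} {c : Matrix (Fin g) (Fin g) ℚ} {k : ℕ} (hk : 0 < k) (h : c ^ k = 1) :
    c ^ (2 * g).factorial = 1 := by
  classical
  obtain ⟨f, hf⟩ : ∃ f, f = minpoly ℚ c := ⟨_, rfl⟩
  have hint : IsIntegral ℚ c := Algebra.IsIntegral.isIntegral c
  have hf0 : f ≠ 0 := by rw [hf]; exact minpoly.ne_zero hint
  have hdvd : f ∣ X ^ k - 1 := by
    rw [hf]
    exact minpoly.dvd ℚ c (by simp [h])
  have hdeg : f.natDegree ≤ g := by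
    have h1 : f ∣ c.charpoly := by rw [hf]; exact Matrix.minpoly_dvd_charpoly c
    have h2 := Polynomial.natDegree_le_of_dvd h1 (Matrix.charpoly_monic c).ne_zero
    rwa [Matrix.charpoly_natDegree_eq_dim, Fintype.card_fin] at h2
  have hE : 0 < (2 * g).factorial := Nat.factorial_pos _
  rw [← prod_cyclotomic_eq_X_pow_sub_one hk,
    ← Finset.prod_filter_mul_prod_filter_not k.divisors (fun d => Nat.totient d ≤ g)] at hdvd
  have hcop : IsCoprime f (∏ d ∈ k.divisors.filter (fun d => ¬ Nat.totient d ≤ g),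
      cyclotomic d ℚ) := by
    refine IsCoprime.prod_right fun d hd => ?_
    rw [Finset.mem_filter] at hd
    have hd0 : 0 < d := Nat.pos_of_mem_divisors hd.1
    refine IsCoprime.symm ?_
    rw [(cyclotomic.irreducible_rat hd0).coprime_iff_not_dvd]
    intro hcon
    have h1 := Polynomial.natDegree_le_of_dvd hcon hf0
    rw [natDegree_cyclotomic] at h1
    exact hd.2 (h1.trans hdeg)
  have h2 : f ∣ ∏ d ∈ k.divisors.filter (fun d => Nat.totient d ≤ g), cyclotomic d ℚ :=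
    hcop.dvd_of_dvd_mul_right hdvd
  have h3 : f ∣ X ^ (2 * g).factorial - 1 := by
    rw [← prod_cyclotomic_eq_X_pow_sub_one hE]
    refine h2.trans (Finset.prod_dvd_prod_of_subset _ _ _ ?_)
    intro d hd
    rw [Finset.mem_filter] at hd
    rw [Nat.mem_divisors]
    exact ⟨dvd_fact (Nat.pos_of_mem_divisors hd.1) hd.2, hE.ne'⟩
  obtain ⟨w, hw⟩ := h3
  have h4 := congrArg (aeval c) hw
  rw [map_mul, hf, minpoly.aeval, zero_mul, map_sub, map_pow, aeval_X, map_one] at h4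
  exact sub_eq_zero.1 h4

/-- the integral form -/
theorem mat_pow_int {g : ℕ} {C : Matrix (Fin g) (Fin g) ℤ} {N : ℤ} (hN : N ≠ 0) {k : ℕ}
    (hk : 0 < k) (h : C ^ k = (N ^ k) • (1 : Matrix (Fin g) (Fin g) ℤ)) {e : ℕ}
    (he : (2 * g).factorial ∣ e) :
    C ^ e = (N ^ e) • (1 : Matrix (Fin g) (Fin g) ℤ) := by
  have hNq : (N : ℚ) ≠ 0 := Int.cast_ne_zero.2 hN
  obtain ⟨F, hF⟩ : ∃ F : Matrix (Fin g) (Fin g) ℤ →+* Matrix (Fin g) (Fin g) ℚ,
    F = (Int.castRingHom ℚ).mapMatrix := ⟨_, rfl⟩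
  have hFinj : Function.Injective F := by
    rw [hF]
    intro a b hab
    ext i j
    have := congrFun (congrFun hab i) j
    simpa using this
  have hFs : ∀ (n : ℤ), F (n • (1 : Matrix (Fin g) (Fin g) ℤ)) = (n : ℚ) • 1 := by
    intro n
    rw [map_zsmul, map_one]
    ext i j
    simp
  have h1 : ((N : ℚ)⁻¹ • F C) ^ k = 1 := by
    rw [_root_.smul_pow, ← map_pow, h, hFs, smul_smul]
    push_cast
    rw [inv_pow, inv_mul_cancel₀ (pow_ne_zero _ hNq), one_smul]
  have h2 := mat_pow hk h1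
  have h3 : ((N : ℚ)⁻¹ • F C) ^ e = 1 := by
    obtain ⟨t, rfl⟩ := he
    rw [pow_mul, h2, one_pow]
  apply hFinj
  rw [map_pow, hFs]
  push_cast
  rw [_root_.smul_pow, inv_pow] at h3
  have h4 : (N : ℚ) ^ e • (((N : ℚ) ^ e)⁻¹ • F C ^ e) = (N : ℚ) ^ e • 1 := by rw [h3]
  rwa [smul_smul, mul_inv_cancel₀ (pow_ne_zero _ hNq), one_smul] at h4

end Pool.Agent.E8helper76.UB
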