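import Pool.Agent.E8helper76.UB.Lift
import Pool.Agent.E8helper76.UB.Mat

/-!
# Torsion of forms of products: the abstract theorem
-/

set_option autoImplicit false

namespace Pool.Agent.E8helper76.UB

open Pool.Agent.Q19.SU.Gen

section basic

variable {V : Type*} [AddCommGroup V]

/-- bases of all levels -/
theorem bas_all (h : ∀ p k : ℕ, p.Prime → ∃ P Q : V, Bas (p ^ k) P Q) (n : ℕ) (hn : 0 < n) :
    ∃ P Q : V, Bas n P Q := by
  induction n using Nat.recOnPosPrimePosCoprime with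
  | prime_pow p k hp _ => exact h p k hp
  | zero => exact absurd hn (lt_irrefl _)
  | one => exact ⟨0, 0, bas_one⟩
  | coprime a b ha hb hab iha ihb =>
    obtain ⟨P, Q, h1⟩ := iha (by omega)
    obtain ⟨P', Q', h2⟩ := ihb (by omega)
    exact ⟨P + P', Q + Q', h1.coprime hab h2⟩

/-- divisibility of the elements of finite order -/
theorem div_tors (h : ∀ n : ℕ, 0 < n → ∃ P Q : V, Bas n P Q) {m n : ℕ} (hm : 0 < m) (hn : 0 < n)
    {v : V} (hv : (m : ℤ) • v = 0) : ∃ w : V, (n : ℤ) • w = v := by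
  obtain ⟨P, Q, hB⟩ := h (m * n) (Nat.mul_pos hm hn)
  have hmz : (m : ℤ) ≠ 0 := by exact_mod_cast hm.ne'
  obtain ⟨a, b, hab⟩ := hB.span v (by
    push_cast
    rw [mul_comm, mul_smul, hv, smul_zero])
  obtain ⟨h1, h2⟩ := hB.ind ((m : ℤ) * a) ((m : ℤ) * b) (by
    rw [mul_smul, mul_smul, ← smul_add, ← hab, hv])
  push_cast at h1 h2
  obtain ⟨a', ha'⟩ := (mul_dvd_mul_iff_left hmz).1 h1
  obtain ⟨b', hb'⟩ := (mul_dvd_mul_iff_left hmz).1 h2
  refine ⟨a' • P + b' • Q, ?_⟩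
  rw [hab, ha', hb']
  module

end basic

variable {r : ℕ} {V : Fin r → Type*} [∀ i, AddCommGroup (V i)] {G : Type*} [Group G]
  {g : Fin r → ℕ}

/-- the action on the product -/
def actP (ρ : ∀ i, G → V i →+ V i) (g : Fin r → ℕ) (σ : G) :
    (∀ i, Fin (g i) → V i) →+ (∀ i, Fin (g i) → V i) where
  toFun x i a := ρ i σ (x i a)
  map_zero' := by
    funext i a
    simp
  map_add' x y := by
    funext i a
    simp

/-- integral matrices -/
def matP (C : ∀ i, Matrix (Fin (g i)) (Fin (g i)) ℤ) :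
    (∀ i, Fin (g i) → V i) →+ (∀ i, Fin (g i) → V i) where
  toFun x i a := ∑ b, C i a b • x i b
  map_zero' := by
    funext i a
    simp
  map_add' x y := by
    funext i a
    simp [Finset.sum_add_distrib]

omit [Group G] in
theorem actP_apply (ρ : ∀ i, G → V i →+ V i) (σ : G) (x : ∀ i, Fin (g i) → V i) (i : Fin r)
    (a : Fin (g i)) : actP ρ g σ x i a = ρ i σ (x i a) := rfl

theorem matP_apply (C : ∀ i, Matrix (Fin (g i)) (Fin (g i)) ℤ) (x : ∀ i, Fin (g i) → V i)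
    (i : Fin r) (a : Fin (g i)) : matP C x i a = ∑ b, C i a b • x i b := rfl

theorem matP_mul (C C' : ∀ i, Matrix (Fin (g i)) (Fin (g i)) ℤ) (x : ∀ i, Fin (g i) → V i) :
    matP (C * C') x = matP C (matP C' x) := by
  funext i a
  simp only [matP_apply, Pi.mul_apply, Matrix.mul_apply, Finset.sum_smul, Finset.smul_sum, mul_smul]
  rw [Finset.sum_comm]

theorem matP_smul_one (n : ℤ) (x : ∀ i, Fin (g i) → V i) :
    matP (n • (1 : ∀ i, Matrix (Fin (g i)) (Fin (g i)) ℤ)) x = n • x := by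
  funext i a
  rw [matP_apply, Finset.sum_eq_single a]
  · simp [Matrix.one_apply_eq]
  · intro b _ hb
    simp [Matrix.one_apply_ne' hb]
  · intro h
    exact absurd (Finset.mem_univ a) h

omit [Group G] in
theorem matP_act (ρ : ∀ i, G → V i →+ V i) (C : ∀ i, Matrix (Fin (g i)) (Fin (g i)) ℤ) (σ : G)
    (x : ∀ i, Fin (g i) → V i) : actP ρ g σ (matP C x) = matP C (actP ρ g σ x) := by
  funext i a
  simp only [actP_apply, matP_apply, map_sum, map_zsmul]

variable {ρ : ∀ i, G → V i →+ V i}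

theorem actP_mul (hmul : ∀ i σ τ v, ρ i (σ * τ) v = ρ i σ (ρ i τ v)) (σ τ : G)
    (x : ∀ i, Fin (g i) → V i) : actP ρ g (σ * τ) x = actP ρ g σ (actP ρ g τ x) := by
  funext i a
  exact hmul i σ τ _

theorem actP_one (hone : ∀ i v, ρ i 1 v = v) (x : ∀ i, Fin (g i) → V i) :
    actP ρ g 1 x = x := by
  funext i a
  exact hone i _

/-- the hypotheses on the action: all automorphisms of determinant one occur on the elements killed
by `n`, if `n` is a power of a prime or is prime to `q i` -/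
structure Full (ρ : ∀ i, G → V i →+ V i) (q : Fin r → ℕ) : Prop where
  hmul : ∀ i σ τ v, ρ i (σ * τ) v = ρ i σ (ρ i τ v)
  hone : ∀ i v, ρ i 1 v = v
  prime : ∀ i, (q i).Prime
  full : ∀ i, ∀ n : ℕ, 0 < n → ((∃ p k : ℕ, p.Prime ∧ n = p ^ k) ∨ Nat.Coprime n (q i)) →
    ∃ P Q : V i, Bas n P Q ∧ All (ρ i) n 1 P Q

variable {q : Fin r → ℕ}

theorem Full.bas (H : Full ρ q) (i : Fin r) (n : ℕ) (hn : 0 < n) : ∃ P Q : V i, Bas n P Q :=
  bas_all (fun p k hp => by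
    obtain ⟨P, Q, h, -⟩ := H.full i (p ^ k) (pow_pos hp.pos k) (Or.inl ⟨p, k, hp, rfl⟩)
    exact ⟨P, Q, h⟩) n hn

theorem Full.div (H : Full ρ q) {m n : ℕ} (hm : 0 < m) (hn : 0 < n) {x : ∀ i, Fin (g i) → V i}
    (hx : (m : ℤ) • x = 0) : ∃ y : ∀ i, Fin (g i) → V i, (n : ℤ) • y = x := by
  have h : ∀ i a, ∃ w : V i, (n : ℤ) • w = x i a := fun i a =>
    div_tors (H.bas i) hm hn (congrFun (congrFun hx i) a)
  choose y hy using h
  exact ⟨y, by funext i a; exact hy i a⟩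

/-- a form: an action of a subgroup `H` on the quotient of the product by a finite subgroup -/
structure Form (ρ : ∀ i, G → V i →+ V i) (g : Fin r → ℕ) (H : Subgroup G)
    (Γ : AddSubgroup (∀ i, Fin (g i) → V i))
    (a : H →* AddMonoid.End ((∀ i, Fin (g i) → V i) ⧸ Γ)) : Prop where
  fin : (Γ : Set (∀ i, Fin (g i) → V i)).Finite
  quasi : ∀ σ : H, ∃ N : ℕ, 0 < N ∧ ∃ C : ∀ i, Matrix (Fin (g i)) (Fin (g i)) ℤ,
    ∀ x : ∀ i, Fin (g i) → V i, N • a σ (x : (∀ i, Fin (g i) → V i) ⧸ Γ) =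
      (matP C (actP ρ g σ x) : (∀ i, Fin (g i) → V i) ⧸ Γ)
  level : ∃ H' : Subgroup G, H'.index ≠ 0 ∧ ∀ σ : H, (σ : G) ∈ H' →
    ∀ x : ∀ i, Fin (g i) → V i, a σ (x : (∀ i, Fin (g i) → V i) ⧸ Γ) =
      (actP ρ g σ x : (∀ i, Fin (g i) → V i) ⧸ Γ)

variable {H : Subgroup G} {Γ : AddSubgroup (∀ i, Fin (g i) → V i)}
  {a : H →* AddMonoid.End ((∀ i, Fin (g i) → V i) ⧸ Γ)}

theorem Form.card (F : Form ρ g H Γ a) : ∃ c : ℕ, 0 < c ∧ ∀ x ∈ Γ, (c : ℤ) • x = 0 := by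
  have : Finite Γ := F.fin.to_subtype
  refine ⟨Nat.card Γ, Nat.card_pos, fun x hx => ?_⟩
  have h1 : Nat.card Γ • (⟨x, hx⟩ : Γ) = 0 := card_nsmul_eq_zero'
  have h2 := congrArg Subtype.val h1
  rw [natCast_zsmul]
  exact h2

/-- the powers -/
theorem Form.rep_pow (hmul : ∀ i σ τ v, ρ i (σ * τ) v = ρ i σ (ρ i τ v))
    (hone : ∀ i v, ρ i 1 v = v) {σ : H} {N : ℤ}
    {C : ∀ i, Matrix (Fin (g i)) (Fin (g i)) ℤ}
    (h : ∀ x : ∀ i, Fin (g i) → V i, N • a σ (x : (∀ i, Fin (g i) → V i) ⧸ Γ) =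
      (matP C (actP ρ g σ x) : (∀ i, Fin (g i) → V i) ⧸ Γ)) (k : ℕ)
    (x : ∀ i, Fin (g i) → V i) :
    (N ^ k) • a (σ ^ k) (x : (∀ i, Fin (g i) → V i) ⧸ Γ) =
      (matP (C ^ k) (actP ρ g ((σ : G) ^ k) x) : (∀ i, Fin (g i) → V i) ⧸ Γ) := by
  induction k generalizing x with
  | zero =>
    rw [pow_zero, pow_zero, pow_zero, pow_zero, one_smul, map_one, actP_one hone]
    have := matP_smul_one (g := g) 1 x
    rw [one_smul, one_smul] at this
    rw [this]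
    rfl
  | succ k ih =>
    have e1 : a (σ ^ (k + 1)) (x : (∀ i, Fin (g i) → V i) ⧸ Γ) = a (σ ^ k) (a σ x) := by
      rw [pow_succ, map_mul]
      rfl
    rw [pow_succ N, mul_smul, e1, ← map_zsmul, h x, ih, pow_succ C, matP_mul,
      matP_act, pow_succ (σ : G), actP_mul hmul]

/-- **a power of an automorphism acts naturally on the torsion** -/
theorem Form.natural (hF : Full ρ q) (F : Form ρ g H Γ a) {d : ℕ} (hd : ∀ i, g i ≤ d) (σ : H)
    {x : ∀ i, Fin (g i) → V i} {m : ℕ} (hm : 0 < m) (hx : (m : ℤ) • x = 0) :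
    a (σ ^ (2 * d).factorial) (x : (∀ i, Fin (g i) → V i) ⧸ Γ) =
      (actP ρ g ((σ : G) ^ (2 * d).factorial) x : (∀ i, Fin (g i) → V i) ⧸ Γ) := by
  obtain ⟨N, hN, C, hC⟩ := F.quasi σ
  obtain ⟨H', hH', hlev⟩ := F.level
  obtain ⟨c, hc, hcΓ⟩ := F.card
  have hNz : (N : ℤ) ≠ 0 := by exact_mod_cast hN.ne'
  have hC' : ∀ x : ∀ i, Fin (g i) → V i, (N : ℤ) • a σ (x : (∀ i, Fin (g i) → V i) ⧸ Γ) =
      (matP C (actP ρ g σ x) : (∀ i, Fin (g i) → V i) ⧸ Γ) := by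
    intro x
    rw [natCast_zsmul]
    exact hC x
  obtain ⟨k, hk, -, hkH⟩ := Subgroup.exists_pow_mem_of_index_ne_zero hH' (σ : G)
  -- the matrix has finite order
  have h1 : ∀ y : ∀ i, Fin (g i) → V i, matP (C ^ k) y - ((N : ℤ) ^ k) • y ∈ Γ := by
    intro y
    have h2 := Form.rep_pow hF.hmul hF.hone hC' k (actP ρ g (((σ : G) ^ k)⁻¹) y)
    rw [hlev (σ ^ k) (by rw [Subgroup.coe_pow]; exact hkH), Subgroup.coe_pow,
      ← actP_mul hF.hmul, mul_inv_cancel, actP_one hF.hone] at h2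
    rw [← QuotientAddGroup.eq_zero_iff, QuotientAddGroup.mk_sub, ← h2, QuotientAddGroup.mk_zsmul,
      sub_self]
  have h2 : ∀ i, C i ^ k = ((N : ℤ) ^ k) • (1 : Matrix (Fin (g i)) (Fin (g i)) ℤ) := by
    intro i
    rw [← sub_eq_zero]
    ext u w
    obtain ⟨D, hD⟩ : ∃ D, D = C i ^ k - ((N : ℤ) ^ k) • (1 : Matrix (Fin (g i)) (Fin (g i)) ℤ) :=
      ⟨_, rfl⟩
    rw [← hD]
    obtain ⟨T, Q, hB⟩ := hF.bas i (c * ((D u w).natAbs + 1)) (by positivity)
    classical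
    obtain ⟨y, hy⟩ : ∃ y : ∀ i, Fin (g i) → V i, y = Pi.single i (Pi.single w T) := ⟨_, rfl⟩
    have h3 := hcΓ _ (h1 y)
    have h4 := congrFun (congrFun h3 i) u
    have h5 : (matP (C ^ k) y - ((N : ℤ) ^ k) • y) i u = D u w • T := by
      rw [Pi.sub_apply, Pi.sub_apply, matP_apply, hy, hD, Finset.sum_eq_single w]
      · rw [Pi.smul_apply, Pi.smul_apply, Pi.single_eq_same, Pi.single_eq_same, Pi.pow_apply,
          Matrix.sub_apply, sub_smul, Matrix.smul_apply, Matrix.one_apply]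
        congr 1
        by_cases huw : u = w
        · subst huw
          rw [Pi.single_eq_same, if_pos rfl, smul_eq_mul, mul_one]
        · rw [Pi.single_eq_of_ne huw, if_neg huw, smul_zero, smul_zero, zero_smul]
      · intro b _ hb
        rw [Pi.single_eq_same, Pi.single_eq_of_ne hb, smul_zero]
      · intro h
        exact absurd (Finset.mem_univ w) h
    rw [Pi.smul_apply, Pi.smul_apply, h5, smul_smul] at h4
    obtain ⟨h6, -⟩ := hB.ind (c * D u w) 0 (by rw [zero_smul, add_zero]; exact h4)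
    push_cast at h6
    have hcz : (c : ℤ) ≠ 0 := by exact_mod_cast hc.ne'
    have h7 := (mul_dvd_mul_iff_left hcz).1 h6
    show D u w = 0
    refine Int.eq_zero_of_abs_lt_dvd h7 ?_
    rw [← Int.natCast_natAbs]
    push_cast
    omega
  obtain ⟨E, hE⟩ : ∃ E, E = (2 * d).factorial := ⟨_, rfl⟩
  rw [← hE]
  have h3 : C ^ E = ((N : ℤ) ^ E) • (1 : ∀ i, Matrix (Fin (g i)) (Fin (g i)) ℤ) := by
    funext i
    exact mat_pow_int hNz hk (h2 i) (by
      rw [hE]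
      exact Nat.factorial_dvd_factorial (Nat.mul_le_mul_left 2 (hd i)))
  obtain ⟨y, hy⟩ := hF.div (g := g) hm (n := N ^ E) (pow_pos hN E) hx
  have hy' : ((N : ℤ) ^ E) • y = x := by
    rw [← hy]; push_cast; rfl
  have h4 := Form.rep_pow hF.hmul hF.hone hC' E y
  rw [h3, matP_smul_one] at h4
  rw [← hy', QuotientAddGroup.mk_zsmul, map_zsmul, h4, map_zsmul]

/-- powers of the elementary matrices -/
theorem isM_powU {W : Type*} [AddCommGroup W] {ρ : G → W →+ W}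
    (hmul : ∀ σ τ v, ρ (σ * τ) v = ρ σ (ρ τ v)) (hone : ∀ v, ρ 1 v = v)
    {P Q : W} {σ : G} (h : IsM ρ P Q σ 1 1 0 1) (e : ℕ) : IsM ρ P Q (σ ^ e) 1 e 0 1 := by
  induction e with
  | zero =>
    rw [pow_zero]
    refine ⟨?_, ?_⟩
    · rw [hone]; simp
    · rw [hone]; simp
  | succ e ih =>
    rw [pow_succ]
    refine IsM.congr (n := 0) (by simp) (by simp) (ih.mul hmul h) ?_ ?_ ?_ ?_
    · norm_num
    · push_cast; ring_nf; exact dvd_zero _
    · norm_num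
    · norm_num

theorem isM_powL {W : Type*} [AddCommGroup W] {ρ : G → W →+ W}
    (hmul : ∀ σ τ v, ρ (σ * τ) v = ρ σ (ρ τ v)) (hone : ∀ v, ρ 1 v = v)
    {P Q : W} {σ : G} (h : IsM ρ P Q σ 1 0 1 1) (e : ℕ) : IsM ρ P Q (σ ^ e) 1 0 e 1 := by
  induction e with
  | zero =>
    rw [pow_zero]
    refine ⟨?_, ?_⟩
    · rw [hone]; simp
    · rw [hone]; simp
  | succ e ih =>
    rw [pow_succ]
    refine IsM.congr (n := 0) (by simp) (by simp) (ih.mul hmul h) ?_ ?_ ?_ ?_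
    · norm_num
    · norm_num
    · push_cast; ring_nf; exact dvd_zero _
    · norm_num

/-- the block of the main argument -/
theorem block {W : Type*} [AddCommGroup W] {ρ : G → W →+ W}
    (hmul : ∀ σ τ v, ρ (σ * τ) v = ρ σ (ρ τ v)) (hone : ∀ v, ρ 1 v = v) {m : ℕ}
    (h : ∃ P Q : W, Bas m P Q ∧ All ρ m 1 P Q) :
    ∃ σ τ : G, ∀ s t : ℕ, ∀ y : W, (m : ℤ) • y = 0 →
      (ρ (σ ^ s) (ρ (τ ^ t) y - y) - (ρ (τ ^ t) y - y)) +
        (ρ (τ ^ t) (ρ (σ ^ s) y - y) - (ρ (σ ^ s) y - y)) = ((s : ℤ) * t) • y := by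
  obtain ⟨P, Q, hB, hA⟩ := h
  obtain ⟨σ, s1, s2, -⟩ := hA 1 1 0 1 (by norm_num)
  obtain ⟨τ, t1, t2, -⟩ := hA 1 0 1 1 (by norm_num)
  refine ⟨σ, τ, fun s t y hy => ?_⟩
  obtain ⟨S1, S2⟩ := isM_powU hmul hone (⟨s1, s2⟩ : IsM ρ P Q σ 1 1 0 1) s
  obtain ⟨T1, T2⟩ := isM_powL hmul hone (⟨t1, t2⟩ : IsM ρ P Q τ 1 0 1 1) t
  rw [one_smul, zero_smul, add_zero] at S1
  rw [one_smul] at S2 T1
  rw [one_smul, zero_smul, zero_add] at T2
  obtain ⟨α, β, hαβ⟩ := hB.span y hy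
  have f1 : ρ (τ ^ t) y - y = (α * t) • Q := by
    rw [hαβ, map_add, map_zsmul, map_zsmul, T1, T2]
    module
  have f2 : ρ (σ ^ s) y - y = (β * s) • P := by
    rw [hαβ, map_add, map_zsmul, map_zsmul, S1, S2]
    module
  rw [f1, f2, map_zsmul, map_zsmul, S2, T1, hαβ]
  module

/-- **the main argument** -/
theorem main_kill (hmul : ∀ i σ τ v, ρ i (σ * τ) v = ρ i σ (ρ i τ v))
    (hone : ∀ i v, ρ i 1 v = v) {e m : ℕ}
    (hfull : ∀ i, ∃ P Q : V i, Bas m P Q ∧ All (ρ i) m 1 P Q) {x : ∀ i, Fin (g i) → V i}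
    (hx : (m : ℤ) • x = 0)
    (hpow : ∀ σ : G, ∃ t : ℕ, 0 < t ∧ t ≤ e ∧ (∀ y ∈ Γ, actP ρ g (σ ^ t) y ∈ Γ) ∧
      actP ρ g (σ ^ t) x - x ∈ Γ) :
    ∃ T : ℕ, 0 < T ∧ T ≤ e ^ (2 * r) ∧ (T : ℤ) • x ∈ Γ := by
  classical
  have key : ∀ s : Finset (Fin r), ∃ T : ℕ, 0 < T ∧ T ≤ e ^ (2 * s.card) ∧ ∃ γ ∈ Γ,
      (m : ℤ) • γ = 0 ∧ ∀ i ∈ s, ∀ u, ((T : ℤ) • x - γ) i u = 0 := by
    intro s
    induction s using Finset.induction_on with
    | empty =>
      exact ⟨1, one_pos, by simp, 0, Γ.zero_mem, smul_zero _,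
        fun i hi => absurd hi (Finset.notMem_empty i)⟩
    | insert k s hk ih =>
      obtain ⟨T, hT0, hT, γ, hγ, hγm, hγs⟩ := ih
      obtain ⟨y, hy⟩ : ∃ y, y = (T : ℤ) • x - γ := ⟨_, rfl⟩
      rw [← hy] at hγs
      have hym : (m : ℤ) • y = 0 := by
        rw [hy, smul_sub, smul_comm, hx, hγm, smul_zero, sub_zero]
      obtain ⟨σ, τ, hb⟩ := block (hmul k) (hone k) (hfull k)
      obtain ⟨a1, ha0, ha1, haΓ, hax⟩ := hpow σ
      obtain ⟨b1, hb0, hb1, hbΓ, hbx⟩ := hpow τ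
      have hZΓ : actP ρ g (σ ^ a1) y - y ∈ Γ := by
        have e1 : actP ρ g (σ ^ a1) y - y = (T : ℤ) • (actP ρ g (σ ^ a1) x - x) -
            (actP ρ g (σ ^ a1) γ - γ) := by
          rw [hy, map_sub, map_zsmul]; module
        rw [e1]
        exact Γ.sub_mem (Γ.zsmul_mem hax _) (Γ.sub_mem (haΓ γ hγ) hγ)
      have hYΓ : actP ρ g (τ ^ b1) y - y ∈ Γ := by
        have e1 : actP ρ g (τ ^ b1) y - y = (T : ℤ) • (actP ρ g (τ ^ b1) x - x) -
            (actP ρ g (τ ^ b1) γ - γ) := by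
          rw [hy, map_sub, map_zsmul]; module
        rw [e1]
        exact Γ.sub_mem (Γ.zsmul_mem hbx _) (Γ.sub_mem (hbΓ γ hγ) hγ)
      obtain ⟨Y, hY⟩ : ∃ Y, Y = actP ρ g (τ ^ b1) y - y := ⟨_, rfl⟩
      obtain ⟨Z, hZ⟩ : ∃ Z, Z = actP ρ g (σ ^ a1) y - y := ⟨_, rfl⟩
      rw [← hY] at hYΓ
      rw [← hZ] at hZΓ
      obtain ⟨θ, hθ⟩ : ∃ θ, θ = (actP ρ g (σ ^ a1) Y - Y) + (actP ρ g (τ ^ b1) Z - Z) := ⟨_, rfl⟩
      have hθΓ : θ ∈ Γ := by
        rw [hθ]
        exact Γ.add_mem (Γ.sub_mem (haΓ Y hYΓ) hYΓ) (Γ.sub_mem (hbΓ Z hZΓ) hZΓ)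
      have hθm : (m : ℤ) • θ = 0 := by
        have hYm : (m : ℤ) • Y = 0 := by
          rw [hY, smul_sub, ← map_zsmul, hym, map_zero, sub_zero]
        have hZm : (m : ℤ) • Z = 0 := by
          rw [hZ, smul_sub, ← map_zsmul, hym, map_zero, sub_zero]
        rw [hθ, smul_add, smul_sub, smul_sub, ← map_zsmul, ← map_zsmul, hYm, hZm, map_zero,
          map_zero, sub_zero, add_zero]
      refine ⟨a1 * b1 * T, by positivity, ?_, ((a1 : ℤ) * b1) • γ + θ,
        Γ.add_mem (Γ.zsmul_mem hγ _) hθΓ, ?_, ?_⟩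
      · rw [Finset.card_insert_of_notMem hk, mul_add, mul_one, pow_add, mul_comm (e ^ _), pow_two]
        exact Nat.mul_le_mul (Nat.mul_le_mul ha1 hb1) hT
      · rw [smul_add, smul_comm, hγm, hθm, smul_zero, add_zero]
      · intro i hi u
        have e1 : ((a1 * b1 * T : ℕ) : ℤ) • x - (((a1 : ℤ) * b1) • γ + θ) =
            ((a1 : ℤ) * b1) • y - θ := by
          rw [hy]
          push_cast
          module
        rw [e1, Pi.sub_apply, Pi.sub_apply, Pi.smul_apply, Pi.smul_apply, sub_eq_zero]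
        have hθi : θ i u = (ρ i (σ ^ a1) (ρ i (τ ^ b1) (y i u) - y i u) -
            (ρ i (τ ^ b1) (y i u) - y i u)) + (ρ i (τ ^ b1) (ρ i (σ ^ a1) (y i u) - y i u) -
            (ρ i (σ ^ a1) (y i u) - y i u)) := by
          rw [hθ, hY, hZ]
          rfl
        rw [hθi]
        rcases Finset.mem_insert.1 hi with rfl | hi
        · -- the new block
          exact (hb a1 b1 (y i u) (congrFun (congrFun hym i) u)).symm
        · -- the old blocks
          rw [hγs i hi u]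
          simp only [map_zero, sub_zero, smul_zero, add_zero]
  obtain ⟨T, hT0, hT, γ, hγ, -, hs⟩ := key Finset.univ
  rw [Finset.card_univ, Fintype.card_fin] at hT
  refine ⟨T, hT0, hT, ?_⟩
  have : (T : ℤ) • x = γ := by
    funext i u
    exact sub_eq_zero.1 (hs i (Finset.mem_univ i) u)
  rw [this]
  exact hγ

/-- the part of `c` prime to `d` -/
theorem split_coprime (d : ℕ) : ∀ c : ℕ, 0 < c → ∃ c₁ c₂ : ℕ, c = c₁ * c₂ ∧ Nat.Coprime c₂ d ∧
    ∀ p : ℕ, p.Prime → p ∣ c₁ → p ∣ d := by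
  intro c
  induction c using Nat.strong_induction_on with
  | _ c ih =>
    intro hc
    by_cases hcop : Nat.gcd c d = 1
    · exact ⟨1, c, (one_mul c).symm, hcop, fun p hp h => absurd (Nat.dvd_one.1 h) hp.ne_one⟩
    · obtain ⟨c', hc'⟩ := Nat.gcd_dvd_left c d
      have hg : 0 < Nat.gcd c d := Nat.gcd_pos_of_pos_left _ hc
      have hc'0 : 0 < c' := by
        rcases Nat.eq_zero_or_pos c' with h | h
        · rw [h, mul_zero] at hc'; omega
        · exact h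
      have hlt : c' < c := by
        have h2 : 2 ≤ Nat.gcd c d := by omega
        calc c' < 2 * c' := by omega
          _ ≤ Nat.gcd c d * c' := Nat.mul_le_mul_right _ h2
          _ = c := hc'.symm
      obtain ⟨c₁, c₂, h1, h2, h3⟩ := ih c' hlt hc'0
      refine ⟨Nat.gcd c d * c₁, c₂, by rw [mul_assoc, ← h1, ← hc'], h2, fun p hp h => ?_⟩
      rcases (Nat.Prime.dvd_mul hp).1 h with h | h
      · exact h.trans (Nat.gcd_dvd_right c d)
      · exact h3 p hp h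

/-- a bound from the bounds for the prime powers and for the part prime to `s` -/
theorem le_of_parts (s : Finset ℕ) (hs : ∀ q ∈ s, q.Prime) {B : ℕ} (n : ℕ) (hn : 0 < n)
    (hB : ∀ d : ℕ, d ∣ n → ((∃ p k : ℕ, p.Prime ∧ d = p ^ k) ∨ ∀ q ∈ s, Nat.Coprime d q) → d ≤ B) :
    n ≤ B ^ (s.card + 1) := by
  classical
  induction s using Finset.induction_on generalizing n with
  | empty =>
    rw [Finset.card_empty, zero_add, pow_one]
    exact hB n dvd_rfl (Or.inr fun q hq => absurd hq (Finset.notMem_empty q))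
  | insert q s hq ih =>
    have hqp := hs q (Finset.mem_insert_self q s)
    obtain ⟨k, n', hn', hnk⟩ := Nat.exists_eq_pow_mul_and_not_dvd hn.ne' q hqp.ne_one
    have hn'0 : 0 < n' := by
      rcases Nat.eq_zero_or_pos n' with h | h
      · rw [h, mul_zero] at hnk; omega
      · exact h
    have h1 : q ^ k ≤ B := hB _ (Dvd.intro _ hnk.symm) (Or.inl ⟨q, k, hqp, rfl⟩)
    have h2 : n' ≤ B ^ (s.card + 1) := by
      refine ih (fun q' h => hs q' (Finset.mem_insert_of_mem h)) n' hn'0 fun d hd h => ?_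
      refine hB d (hd.trans (Dvd.intro_left _ hnk.symm)) ?_
      rcases h with h | h
      · exact Or.inl h
      · refine Or.inr fun q' hq' => ?_
        rcases Finset.mem_insert.1 hq' with rfl | hq'
        · exact ((Nat.Prime.coprime_iff_not_dvd hqp).2 fun h3 => hn' (h3.trans hd)).symm
        · exact h q' hq'
    rw [Finset.card_insert_of_notMem hq, pow_succ, mul_comm, hnk]
    exact Nat.mul_le_mul h1 h2

/-- the powers of the elements of the group -/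
theorem Form.pow (hF : Full ρ q) (F : Form ρ g H Γ a) {d D : ℕ} (hd : ∀ i, g i ≤ d)
    (hH : H.index ≠ 0) (hD : H.index ≤ D) (σ : G) :
    ∃ t : ℕ, 0 < t ∧ t ≤ D * (2 * d).factorial ∧ (∀ y ∈ Γ, actP ρ g (σ ^ t) y ∈ Γ) ∧
      ∃ h : σ ^ t ∈ H, ∀ (x : ∀ i, Fin (g i) → V i) (m : ℕ), 0 < m →
      (m : ℤ) • x = 0 → a ⟨σ ^ t, h⟩ (x : (∀ i, Fin (g i) → V i) ⧸ Γ) =
        (actP ρ g (σ ^ t) x : (∀ i, Fin (g i) → V i) ⧸ Γ) := by
  obtain ⟨c, hc, hcΓ⟩ := F.card
  obtain ⟨k, hk, hkD, hkH⟩ := Subgroup.exists_pow_mem_of_index_ne_zero hH σ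
  have h2 : σ ^ (k * (2 * d).factorial) = (σ ^ k) ^ (2 * d).factorial := by rw [pow_mul]
  have h3 : σ ^ (k * (2 * d).factorial) ∈ H := by rw [h2]; exact H.pow_mem hkH _
  have h' : ∀ (x : ∀ i, Fin (g i) → V i) (m : ℕ), 0 < m → (m : ℤ) • x = 0 →
      a ⟨σ ^ (k * (2 * d).factorial), h3⟩ (x : (∀ i, Fin (g i) → V i) ⧸ Γ) =
        (actP ρ g (σ ^ (k * (2 * d).factorial)) x : (∀ i, Fin (g i) → V i) ⧸ Γ) := by
    intro x m hm hx
    have h4 := F.natural hF hd ⟨σ ^ k, hkH⟩ hm hx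
    have h5 : (⟨σ ^ (k * (2 * d).factorial), h3⟩ : H) =
        (⟨σ ^ k, hkH⟩ : H) ^ (2 * d).factorial := by
      apply Subtype.ext
      rw [Subgroup.coe_pow]
      exact h2
    rw [h5, h4]
    congr 1
    rw [h2]
  refine ⟨k * (2 * d).factorial, Nat.mul_pos hk (Nat.factorial_pos _),
    Nat.mul_le_mul_right _ (hkD.trans hD), ?_, h3, h'⟩
  intro y hy
  have h1 := h' y c hc (hcΓ y hy)
  rw [(QuotientAddGroup.eq_zero_iff y).2 hy, map_zero] at h1
  exact (QuotientAddGroup.eq_zero_iff _).1 h1.symm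

/-- **bounded order**: the elements of finite order which are fixed by the action -/
theorem Form.bound (hF : Full ρ q) (F : Form ρ g H Γ a) {d D : ℕ} (hd : ∀ i, g i ≤ d)
    (hH : H.index ≠ 0) (hD : H.index ≤ D) {z : (∀ i, Fin (g i) → V i) ⧸ Γ}
    (hz : ∀ σ : H, a σ z = z) (hfin : IsOfFinAddOrder z) :
    addOrderOf z ≤ (D * (2 * d).factorial) ^ (2 * r * (r + 1)) := by
  classical
  obtain ⟨e, he⟩ : ∃ e, e = D * (2 * d).factorial := ⟨_, rfl⟩
  rw [← he]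
  obtain ⟨c, hc, hcΓ⟩ := F.card
  have hpow := F.pow hF hd hH hD
  rw [← he] at hpow
  have hn : 0 < addOrderOf z := hfin.addOrderOf_pos
  have he0 : 0 < e := by
    rw [he]
    exact Nat.mul_pos (lt_of_lt_of_le (Nat.pos_of_ne_zero hH) hD) (Nat.factorial_pos _)
  have key : ∀ n : ℕ, n ∣ addOrderOf z → ((∃ p k : ℕ, p.Prime ∧ n = p ^ k) ∨
      ∀ q' ∈ Finset.univ.image q, Nat.Coprime n q') → n ≤ e ^ (2 * r) := by
    intro n hnz hcase
    obtain ⟨n', hn'⟩ := hnz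
    have hn'0 : n' ≠ 0 := by
      rintro rfl
      rw [mul_zero] at hn'
      omega
    have hn0 : 0 < n := by
      rcases Nat.eq_zero_or_pos n with h | h
      · rw [h, zero_mul] at hn'; omega
      · exact h
    obtain ⟨z', hz'⟩ : ∃ z', z' = n' • z := ⟨_, rfl⟩
    have hord : addOrderOf z' = n := by
      rw [hz', addOrderOf_nsmul' z hn'0, hn', Nat.gcd_mul_left_left,
        Nat.mul_div_cancel _ (by omega)]
    have hfix' : ∀ σ : H, a σ z' = z' := by
      intro σ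
      rw [hz', map_nsmul, hz σ]
    obtain ⟨x', hx'⟩ := QuotientAddGroup.mk_surjective z'
    -- a lift with the same primes
    obtain ⟨c₁, c₂, hcs, hcop, hpr⟩ := split_coprime n c hc
    have hc₁0 : 0 < c₁ := by
      rcases Nat.eq_zero_or_pos c₁ with h | h
      · rw [h, zero_mul] at hcs; omega
      · exact h
    obtain ⟨u, v, huv⟩ := (Nat.isCoprime_iff_coprime.2 hcop : IsCoprime (c₂ : ℤ) ((n : ℕ) : ℤ))
    obtain ⟨x, hx⟩ : ∃ x, x = (u * c₂) • x' := ⟨_, rfl⟩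
    have hkz : (n : ℤ) • z' = 0 := by
      rw [natCast_zsmul, ← hord]; exact addOrderOf_nsmul_eq_zero z'
    have hxz : (x : (∀ i, Fin (g i) → V i) ⧸ Γ) = z' := by
      rw [hx, QuotientAddGroup.mk_zsmul, hx']
      have : u * (c₂ : ℤ) = 1 - v * (n : ℤ) := by linear_combination huv
      rw [this, sub_smul, one_smul, mul_smul, hkz, smul_zero, sub_zero]
    obtain ⟨m, hm⟩ : ∃ m, m = n * c₁ := ⟨_, rfl⟩
    have hm0 : 0 < m := by rw [hm]; exact Nat.mul_pos hn0 hc₁0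
    have hxm : (m : ℤ) • x = 0 := by
      have h1 : (n : ℤ) • x' ∈ Γ := by
        rw [← QuotientAddGroup.eq_zero_iff, QuotientAddGroup.mk_zsmul, hx', hkz]
      have h2 := hcΓ _ h1
      have h3 : (m : ℤ) • x = u • ((c : ℤ) • ((n : ℤ) • x')) := by
        rw [hx, hcs, hm, smul_smul, smul_smul, smul_smul]
        congr 1
        push_cast
        ring
      rw [h3, h2, smul_zero]
    have hmp : ∀ p : ℕ, p.Prime → p ∣ m → p ∣ n := by
      intro p hp h
      rw [hm] at h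
      rcases (Nat.Prime.dvd_mul hp).1 h with h | h
      · exact h
      · exact hpr p hp h
    have hlev : ∀ i, ∃ P Q : V i, Bas m P Q ∧ All (ρ i) m 1 P Q := by
      intro i
      refine hF.full i m hm0 ?_
      rcases hcase with ⟨p, k, hp, hpk⟩ | h
      · refine Or.inl ⟨p, _, hp, Nat.eq_prime_pow_of_unique_prime_dvd hm0.ne' ?_⟩
        intro p' hp' h
        have h1 := hmp p' hp' h
        rw [hpk] at h1
        exact (Nat.prime_dvd_prime_iff_eq hp' hp).1 (hp'.dvd_of_dvd_pow h1)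
      · refine Or.inr ?_
        rw [Nat.coprime_comm, Nat.Prime.coprime_iff_not_dvd (hF.prime i)]
        intro h1
        have h2 := hmp _ (hF.prime i) h1
        have h3 := h (q i) (Finset.mem_image_of_mem q (Finset.mem_univ i))
        rw [Nat.coprime_comm, Nat.Prime.coprime_iff_not_dvd (hF.prime i)] at h3
        exact h3 h2
    obtain ⟨T, hT0, hT, hTx⟩ := main_kill (Γ := Γ) (e := e) hF.hmul hF.hone hlev hxm (fun σ => by
      obtain ⟨t, ht0, ht, htΓ, h, h'⟩ := hpow σ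
      refine ⟨t, ht0, ht, htΓ, ?_⟩
      have h1 := h' x m hm0 hxm
      rw [hxz, hfix', ← hxz] at h1
      rw [← QuotientAddGroup.eq_zero_iff, QuotientAddGroup.mk_sub, ← h1, sub_self])
    refine le_trans (Nat.le_of_dvd hT0 ?_) hT
    rw [← hord]
    apply addOrderOf_dvd_of_nsmul_eq_zero
    rw [← hxz, ← QuotientAddGroup.mk_nsmul, QuotientAddGroup.eq_zero_iff, ← natCast_zsmul]
    exact hTx
  have h1 := le_of_parts (Finset.univ.image q) (fun q' hq' => by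
    obtain ⟨i, -, rfl⟩ := Finset.mem_image.1 hq'
    exact hF.prime i) (addOrderOf z) hn key
  refine h1.trans ?_
  rw [← pow_mul]
  refine Nat.pow_le_pow_right he0 (Nat.mul_le_mul_left _ (Nat.succ_le_succ ?_))
  refine Finset.card_image_le.trans ?_
  rw [Finset.card_univ, Fintype.card_fin]

end Pool.Agent.E8helper76.UB
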