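import Pool.Agent.E8helper76.UB.Lift
import Pool.Agent.Q19.SU.Tor

/-!
# All prime powers, and all levels prime to one prime number, for almost all invariants
-/

set_option autoImplicit false

namespace Pool.Agent.E8helper76.UB

open WeierstrassCurve NumberField IsDedekindDomain Finset Pool.Agent.H691R3
open Pool.Agent.H901R3.MS Pool.Agent.W275.FM
open Pool.Agent.Y673.Loc Pool.Agent.Y673.SL
open Pool.Agent.TH876.Loc (Pr)
open Pool.Agent.Y733.LS (Sp sp jj dl Fs_sp Fs_log fv_Na fin_nat)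
open Pool.Agent.W223.AK (ht)
open Pool.Agent.Q19.JL Pool.Agent.Q19.SU

variable {K : Type} [Field K] [NumberField K]

/-- the prime number below a prime -/
theorem exists_prime_mem (v : HeightOneSpectrum (𝓞 K)) :
    ∃ q : ℕ, q.Prime ∧ (q : 𝓞 K) ∈ v.asIdeal := by
  have hN : ((Ideal.absNorm v.asIdeal : ℕ) : 𝓞 K) ∈ v.asIdeal := Ideal.absNorm_mem v.asIdeal
  have hN0 : Ideal.absNorm v.asIdeal ≠ 0 := by
    rw [Ne, Ideal.absNorm_eq_zero_iff]
    exact v.ne_bot
  rw [← Nat.prod_primeFactorsList hN0, Nat.cast_list_prod] at hN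
  have hp : v.asIdeal.IsPrime := v.isPrime
  rw [← Multiset.prod_coe, Ideal.IsPrime.multiset_prod_mem_iff_exists_mem hp] at hN
  obtain ⟨x, hx, hxv⟩ := hN
  rw [Multiset.mem_coe, List.mem_map] at hx
  obtain ⟨q, hq, rfl⟩ := hx
  exact ⟨q, Nat.prime_of_mem_primeFactorsList hq, hxv⟩

/-- the numbers prime to the prime number below `v` are units at `v` -/
theorem unit_of_coprime {v : HeightOneSpectrum (𝓞 K)} {q : ℕ} (hq : (q : 𝓞 K) ∈ v.asIdeal)
    {n : ℕ} (hn : 0 < n) (hc : Nat.Coprime n q) : (adv K v).v (n : K) = 0 := by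
  rw [← val_iff v hn.ne']
  have h1 : (n : K) = algebraMap (𝓞 K) K (n : 𝓞 K) := by simp
  rw [h1, HeightOneSpectrum.valuation_of_algebraMap, HeightOneSpectrum.intValuation_eq_one_iff]
  intro hmem
  obtain ⟨a, b, hab⟩ := (Nat.isCoprime_iff_coprime.2 hc : IsCoprime (n : ℤ) (q : ℤ))
  apply v.isPrime.one_notMem
  have h2 : (1 : 𝓞 K) = (a : 𝓞 K) * (n : 𝓞 K) + (b : 𝓞 K) * (q : 𝓞 K) := by
    have := congrArg (fun z : ℤ => (z : 𝓞 K)) hab
    push_cast at this
    exact this.symm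
  rw [h2]
  exact v.asIdeal.add_mem (v.asIdeal.mul_mem_left _ hmem) (v.asIdeal.mul_mem_left _ hq)

/-- **the levels**: the image contains all automorphisms of determinant one of the points killed by
`n`, for all prime powers `n` and all `n` prime to one prime number -/
def Lv (j : K) : Prop := ∃ q : ℕ, q.Prime ∧ ∀ A B : K, 4 * A ^ 3 + 27 * B ^ 2 ≠ 0 → jv A B = j →
  ∀ n : ℕ, 0 < n → ((∃ p k : ℕ, p.Prime ∧ n = p ^ k) ∨ Nat.Coprime n q) → HasSLn A B n

open scoped Classical in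
theorem lv_of {j : K} (h0 : j ≠ 0) (h1 : j ≠ 1728) {η : ℝ} (hη : η ≤ 1 / 4)
    (hsp : (1 - η) * ht j ≤ sp j) (hht : CA (Module.finrank ℚ K) < 1 / 4 * ht j) : Lv j := by
  have hpos := ht_pos_of hht
  have hsp0 : 0 < sp j := by nlinarith
  obtain ⟨v, hv⟩ := exists_sp hsp0
  obtain ⟨q, hq, hqv⟩ := exists_prime_mem v
  obtain ⟨k2, k3, -⟩ := adv_sp h0 hv
  have cop : ∀ n : ℕ, 0 < n → Nat.Coprime n q → ∀ A B : K, 4 * A ^ 3 + 27 * B ^ 2 ≠ 0 →
      jv A B = j → HasSLn A B n := fun n hn hc A B hD hj =>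
    sl_level h0 h1 hη hsp hht hD hj hn ⟨v, hv, unit_of_coprime hqv hn hc⟩
  have hq5 : 5 ≤ q := by
    have hnot : ∀ p : ℕ, p.Prime → (adv K v).v (p : K) = 0 → q ≠ p := by
      rintro p hp hpv rfl
      rw [← val_iff v hp.ne_zero] at hpv
      have e1 : (q : K) = algebraMap (𝓞 K) K (q : 𝓞 K) := by simp
      rw [e1, HeightOneSpectrum.valuation_of_algebraMap,
        HeightOneSpectrum.intValuation_eq_one_iff] at hpv
      exact hpv hqv
    have n2 := hnot 2 Nat.prime_two (by exact_mod_cast k2)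
    have n3 := hnot 3 Nat.prime_three (by exact_mod_cast k3)
    have h2 := hq.two_le
    have n4 : q ≠ 4 := by
      rintro rfl
      exact absurd hq (by decide)
    omega
  refine ⟨q, hq, fun A B hD hj n hn h => ?_⟩
  rcases h with ⟨p, k, hp, rfl⟩ | h
  · by_cases hpq : p = q
    · subst hpq
      rcases Nat.eq_zero_or_pos k with rfl | hk
      · exact cop _ hn (by simp) A B hD hj
      · obtain ⟨k, rfl⟩ : ∃ k', k = k' + 1 := ⟨k - 1, by omega⟩
        obtain ⟨P, Q, hB, hA⟩ := hasSLn_of hD hp (sl_all h0 h1 hη hsp hht A B hD hj p hp)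
        obtain ⟨P', Q', hB', hA'⟩ := lift
          (ρ := fun σ : AlgebraicClosure K ≃ₐ[K] AlgebraicClosure K => act A B σ) hq5
          (fun k => hyp_all h0 h1 hη hsp hht hD hj hp k)
          ⟨P, Q, hB, fun a b c d hdet => by
            obtain ⟨σ, s1, s2⟩ := hA a b c d hdet
            refine ⟨σ, s1, s2, fun R hR => ?_⟩
            have : R = 0 := by simpa using hR
            rw [this, map_zero]⟩ k
        refine ⟨P', Q', hB', fun a b c d hdet => ?_⟩
        obtain ⟨σ, s1, s2, -⟩ := hA' a b c d hdet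
        exact ⟨σ, s1, s2⟩
    · exact cop _ hn (((Nat.coprime_primes hp hq).2 hpq).pow_left k) A B hD hj
  · exact cop n hn h A B hD hj

/-- **almost all invariants of all heights** -/
theorem lv_prop (K : Type) [Field K] [NumberField K] (η C : ℝ) (hη0 : 0 < η) (hη : η ≤ 1 / 4) :
    ∃ ν X₀ : ℝ, 0 < ν ∧ 1 ≤ X₀ ∧ ∀ X : ℝ, X₀ ≤ X → ∀ S : Set K, S ⊆ Iv K X →
      (∀ j ∈ S, ¬ (Lv j ∧ (1 - η) * ht j ≤ sp j ∧ C ≤ ht j)) →
      ((S.ncard : ℕ) : ℝ) ≤ X ^ (-ν) * (Iv K X).ncard := by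
  obtain ⟨ν, X₀, hν, hX₀, h⟩ := ls_prop K η (max (4 * CA (Module.finrank ℚ K) + 1) C) hη0
    (by linarith)
  refine ⟨ν, X₀, hν, hX₀, fun X hX S hS hb => h X hX S hS fun j hj hgood => hb j hj ?_⟩
  obtain ⟨-, -, hsp, hht⟩ := hgood
  have h1 := (le_max_left _ _).trans hht
  have h3 : CA (Module.finrank ℚ K) < 1 / 4 * ht j := by linarith
  exact ⟨lv_of (hS hj).1 (hS hj).2.1 hη hsp h3, hsp, (le_max_right _ _).trans hht⟩

end Pool.Agent.E8helper76.UB
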