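import Pool.Agent.E8helper76.UB.Core
import Pool.Agent.Q19.SU.Iso

/-!
# Isogenies of bounded degree: powers
-/

set_option autoImplicit false

namespace Pool.Agent.E8helper76.UB

open Pool.Agent.Q19.SU Pool.Agent.Q19.SU.Gen

variable {W : Type*} [AddCommGroup W] {G : Type*} [Group G] {ρ : G → W →+ W} {g : ℕ}

/-- the action on the power -/
def actV (ρ : G → W →+ W) (g : ℕ) (σ : G) : (Fin g → W) →+ (Fin g → W) where
  toFun x i := ρ σ (x i)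
  map_zero' := by
    funext i
    simp
  map_add' x y := by
    funext i
    simp

omit [Group G] in
theorem actV_apply (σ : G) (x : Fin g → W) (i : Fin g) : actV ρ g σ x i = ρ σ (x i) := rfl

/-- one level -/
theorem iso_part (hmul : ∀ σ τ v, ρ (σ * τ) v = ρ σ (ρ τ v)) (hone : ∀ v, ρ 1 v = v)
    {m e : ℕ} (h : ∃ P Q : W, Bas m P Q ∧ All ρ m 1 P Q) {Γ : AddSubgroup (Fin g → W)}
    (hpow : ∀ σ : G, ∃ t : ℕ, 0 < t ∧ t ≤ e ∧ ∀ y ∈ Γ, actV ρ g (σ ^ t) y ∈ Γ) :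
    ∃ T : ℕ, 0 < T ∧ T ≤ e ^ 2 ∧ ∀ σ : G, ∀ γ ∈ Γ, (m : ℤ) • γ = 0 →
      (T : ℤ) • actV ρ g σ γ ∈ Γ := by
  obtain ⟨P, Q, hB, hA⟩ := h
  obtain ⟨σu, s1, s2, -⟩ := hA 1 1 0 1 (by norm_num)
  obtain ⟨σl, t1, t2, -⟩ := hA 1 0 1 1 (by norm_num)
  obtain ⟨s, hs0, hs, hsΓ⟩ := hpow σu
  obtain ⟨t, ht0, ht, htΓ⟩ := hpow σl
  obtain ⟨S1, S2⟩ := isM_powU hmul hone (⟨s1, s2⟩ : IsM ρ P Q σu 1 1 0 1) s
  obtain ⟨T1, T2⟩ := isM_powL hmul hone (⟨t1, t2⟩ : IsM ρ P Q σl 1 0 1 1) t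
  rw [one_smul, zero_smul, add_zero] at S1
  rw [one_smul] at S2 T1
  rw [one_smul, zero_smul, zero_add] at T2
  refine ⟨s * t, Nat.mul_pos hs0 ht0, ?_, ?_⟩
  · rw [pow_two]; exact Nat.mul_le_mul hs ht
  intro σ γ hγ hm
  obtain ⟨a, b, c, d, M1, M2⟩ := exists_isM (ρ := ρ) hB σ
  obtain ⟨A, hAd⟩ : ∃ A, A = actV ρ g (σu ^ s) γ - γ := ⟨_, rfl⟩
  obtain ⟨B, hBd⟩ : ∃ B, B = actV ρ g (σl ^ t) γ - γ := ⟨_, rfl⟩
  have hAΓ : A ∈ Γ := by rw [hAd]; exact Γ.sub_mem (hsΓ γ hγ) hγ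
  have hBΓ : B ∈ Γ := by rw [hBd]; exact Γ.sub_mem (htΓ γ hγ) hγ
  obtain ⟨AB, hAB⟩ : ∃ AB, AB = actV ρ g (σu ^ s) B - B := ⟨_, rfl⟩
  obtain ⟨BA, hBA⟩ : ∃ BA, BA = actV ρ g (σl ^ t) A - A := ⟨_, rfl⟩
  have hABΓ : AB ∈ Γ := by rw [hAB]; exact Γ.sub_mem (hsΓ B hBΓ) hBΓ
  have hBAΓ : BA ∈ Γ := by rw [hBA]; exact Γ.sub_mem (htΓ A hAΓ) hAΓ
  have key : ((s * t : ℕ) : ℤ) • actV ρ g σ γ = a • AB + (b * t) • A + (c * s) • B + d • BA := by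
    funext i
    obtain ⟨α, β, hαβ⟩ := hB.span (γ i) (congrFun hm i)
    have f1 : A i = (β * s) • P := by
      rw [hAd, Pi.sub_apply, actV_apply, hαβ, map_add, map_zsmul, map_zsmul, S1, S2]
      module
    have f2 : B i = (α * t) • Q := by
      rw [hBd, Pi.sub_apply, actV_apply, hαβ, map_add, map_zsmul, map_zsmul, T1, T2]
      module
    have f3 : AB i = (α * t * s) • P := by
      rw [hAB, Pi.sub_apply, actV_apply, f2, map_zsmul, S2]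
      module
    have f4 : BA i = (β * s * t) • Q := by
      rw [hBA, Pi.sub_apply, actV_apply, f1, map_zsmul, T1]
      module
    rw [Pi.add_apply, Pi.add_apply, Pi.add_apply, Pi.smul_apply, Pi.smul_apply, Pi.smul_apply,
      Pi.smul_apply, Pi.smul_apply, f1, f2, f3, f4, actV_apply, hαβ, map_add, map_zsmul, map_zsmul,
      M1, M2]
    push_cast
    module
  rw [key]
  exact Γ.add_mem (Γ.add_mem (Γ.add_mem (Γ.zsmul_mem hABΓ _) (Γ.zsmul_mem hAΓ _))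
    (Γ.zsmul_mem hBΓ _)) (Γ.zsmul_mem hBAΓ _)

/-- **isogenies of bounded degree** -/
theorem iso_bound (hmul : ∀ σ τ v, ρ (σ * τ) v = ρ σ (ρ τ v)) (hone : ∀ v, ρ 1 v = v)
    {q : ℕ} (hq : q.Prime)
    (hfull : ∀ n : ℕ, 0 < n → ((∃ p k : ℕ, p.Prime ∧ n = p ^ k) ∨ Nat.Coprime n q) →
      ∃ P Q : W, Bas n P Q ∧ All ρ n 1 P Q) {Γ : AddSubgroup (Fin g → W)}
    (hfin : (Γ : Set (Fin g → W)).Finite) {e : ℕ}
    (hpow : ∀ σ : G, ∃ t : ℕ, 0 < t ∧ t ≤ e ∧ ∀ y ∈ Γ, actV ρ g (σ ^ t) y ∈ Γ) :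
    ∃ T : ℕ, 0 < T ∧ T ≤ e ^ 4 ∧ ∃ N : Matrix (Fin g) (Fin g) ℤ, N.det ≠ 0 ∧
      (∀ x, Iso.mulV N x = 0 → x ∈ Γ) ∧ ∀ x ∈ Γ, (T : ℤ) • Iso.mulV N x = 0 := by
  have : Finite Γ := hfin.to_subtype
  obtain ⟨c, hc, hcΓ⟩ : ∃ c : ℕ, 0 < c ∧ ∀ x ∈ Γ, (c : ℤ) • x = 0 := by
    refine ⟨Nat.card Γ, Nat.card_pos, fun x hx => ?_⟩
    have h1 : Nat.card Γ • (⟨x, hx⟩ : Γ) = 0 := card_nsmul_eq_zero'
    have h2 := congrArg Subtype.val h1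
    rw [natCast_zsmul]
    exact h2
  obtain ⟨b, c', hc'q, hcb⟩ := Nat.exists_eq_pow_mul_and_not_dvd hc.ne' q hq.ne_one
  have hc'0 : 0 < c' := by
    rcases Nat.eq_zero_or_pos c' with h | h
    · rw [h, mul_zero] at hcb; omega
    · exact h
  have hcop : Nat.Coprime c' q := ((Nat.Prime.coprime_iff_not_dvd hq).2 hc'q).symm
  obtain ⟨T1, hT10, hT1, h1⟩ := iso_part hmul hone (hfull c' hc'0 (Or.inr hcop)) hpow
  obtain ⟨T2, hT20, hT2, h2⟩ := iso_part hmul hone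
    (hfull (q ^ b) (pow_pos hq.pos b) (Or.inl ⟨q, b, hq, rfl⟩)) hpow
  obtain ⟨u, v, huv⟩ := (Nat.isCoprime_iff_coprime.2 (hcop.pow_right b) :
    IsCoprime (c' : ℤ) ((q ^ b : ℕ) : ℤ))
  have key : ∀ σ : G, ∀ γ ∈ Γ, ((T1 * T2 : ℕ) : ℤ) • actV ρ g σ γ ∈ Γ := by
    intro σ γ hγ
    have e1 : γ = (v * ((q ^ b : ℕ) : ℤ)) • γ + (u * c') • γ := by
      rw [← add_smul]
      have : v * ((q ^ b : ℕ) : ℤ) + u * c' = 1 := by linear_combination huv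
      rw [this, one_smul]
    have k1 := h1 σ _ (Γ.zsmul_mem hγ (v * ((q ^ b : ℕ) : ℤ))) (by
      have : (c' : ℤ) • ((v * ((q ^ b : ℕ) : ℤ)) • γ) = v • ((c : ℤ) • γ) := by
        rw [hcb, smul_smul, smul_smul]
        congr 1
        push_cast
        ring
      rw [this, hcΓ γ hγ, smul_zero])
    have k2 := h2 σ _ (Γ.zsmul_mem hγ (u * (c' : ℤ))) (by
      have : ((q ^ b : ℕ) : ℤ) • ((u * (c' : ℤ)) • γ) = u • ((c : ℤ) • γ) := by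
        rw [hcb, smul_smul, smul_smul]
        congr 1
        push_cast
        ring
      rw [this, hcΓ γ hγ, smul_zero])
    have e2 : ((T1 * T2 : ℕ) : ℤ) • actV ρ g σ γ =
        (T2 : ℤ) • ((T1 : ℤ) • actV ρ g σ ((v * ((q ^ b : ℕ) : ℤ)) • γ)) +
          (T1 : ℤ) • ((T2 : ℤ) • actV ρ g σ ((u * (c' : ℤ)) • γ)) := by
      conv_lhs => rw [e1]
      rw [map_add, smul_add, smul_smul, smul_smul]
      push_cast
      rw [mul_comm (T2 : ℤ)]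
    rw [e2]
    exact Γ.add_mem (Γ.zsmul_mem k1 _) (Γ.zsmul_mem k2 _)
  obtain ⟨T, hT⟩ : ∃ T, T = T1 * T2 := ⟨_, rfl⟩
  rw [← hT] at key
  obtain ⟨Γ', hΓ'⟩ : ∃ Γ' : AddSubgroup (Fin g → W), Γ' = AddSubgroup.closure
    {z | ∃ σ : G, ∃ γ ∈ Γ, z = actV ρ g σ ((T : ℤ) • γ)} := ⟨_, rfl⟩
  have hle : Γ' ≤ Γ := by
    rw [hΓ', AddSubgroup.closure_le]
    rintro z ⟨σ, γ, hγ, rfl⟩
    rw [map_zsmul]
    exact key σ γ hγ
  have hst : ∀ σ : G, ∀ x ∈ Γ', (fun i => ρ σ (x i)) ∈ Γ' := by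
    intro σ x hx
    have h3 : Γ' ≤ Γ'.comap (actV ρ g σ) := by
      conv_lhs => rw [hΓ']
      rw [AddSubgroup.closure_le]
      rintro z ⟨τ, γ, hγ, rfl⟩
      show actV ρ g σ (actV ρ g τ ((T : ℤ) • γ)) ∈ Γ'
      rw [hΓ']
      refine AddSubgroup.subset_closure ⟨σ * τ, γ, hγ, ?_⟩
      funext i
      exact (hmul σ τ _).symm
    exact h3 hx
  have hfin' : Finite Γ' := (hfin.subset hle).to_subtype
  obtain ⟨N, hN0, hN⟩ := Iso.exists_matrix (act := ρ) _ Γ' hfin' rfl hst (fun p hp _ => by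
    obtain ⟨P, Q, hB, hA⟩ := hfull p hp.pos (Or.inl ⟨p, 1, hp, (pow_one p).symm⟩)
    refine ⟨P, Q, ?_, ?_, ?_, ?_⟩
    · rw [← natCast_zsmul]; exact hB.hP
    · rw [← natCast_zsmul]; exact hB.hQ
    · intro R hR
      rw [← natCast_zsmul] at hR
      exact hB.span R hR
    · intro a b c d hdet
      obtain ⟨σ, k1, k2, -⟩ := hA a b c d hdet
      exact ⟨σ, k1, k2⟩)
  refine ⟨T, ?_, ?_, N, hN0, ?_, ?_⟩
  · rw [hT]; exact Nat.mul_pos hT10 hT20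
  · rw [hT]
    calc T1 * T2 ≤ e ^ 2 * e ^ 2 := Nat.mul_le_mul hT1 hT2
      _ = e ^ 4 := by ring
  · intro x hx
    exact hle ((hN x).2 hx)
  · intro x hx
    rw [← map_zsmul, ← hN, hΓ']
    refine AddSubgroup.subset_closure ⟨1, x, hx, ?_⟩
    funext i
    exact (hone _).symm

end Pool.Agent.E8helper76.UB
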