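import Pool.Agent.Q19.SU.Gen2

/-!
# From the level `p` to all powers of `p`, for the primes `p ≥ 5`
-/

set_option autoImplicit false

namespace Pool.Agent.E8helper76.UB

open Pool.Agent.Q19.SU.Gen

variable {V : Type*} [AddCommGroup V]

/-- the basis of the elements killed by `p` -/
theorem bas_down {p : ℕ} (hp : p ≠ 0) {k : ℕ} {P Q : V} (h : Bas (p ^ (k + 1)) P Q) :
    Bas p (((p : ℤ) ^ k) • P) (((p : ℤ) ^ k) • Q) := by
  have hpz : (p : ℤ) ≠ 0 := by exact_mod_cast hp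
  have hcast : ((p ^ (k + 1) : ℕ) : ℤ) = (p : ℤ) ^ (k + 1) := by push_cast; rfl
  have e : ((p : ℤ) ^ (k + 1)) = (p : ℤ) * (p : ℤ) ^ k := pow_succ' _ _
  refine ⟨?_, ?_, ?_, ?_⟩
  · rw [smul_smul, ← e, ← hcast]; exact h.hP
  · rw [smul_smul, ← e, ← hcast]; exact h.hQ
  · intro R hR
    obtain ⟨a, b, hab⟩ := h.span R (by rw [hcast, pow_succ, mul_smul, hR, smul_zero])
    obtain ⟨h1, h2⟩ := h.ind ((p : ℤ) * a) ((p : ℤ) * b) (by
      rw [mul_smul, mul_smul, ← smul_add, ← hab, hR])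
    rw [hcast, e] at h1 h2
    obtain ⟨a', ha'⟩ := (mul_dvd_mul_iff_left hpz).1 h1
    obtain ⟨b', hb'⟩ := (mul_dvd_mul_iff_left hpz).1 h2
    refine ⟨a', b', ?_⟩
    rw [hab, ha', hb', smul_smul, smul_smul, mul_comm a', mul_comm b']
  · intro a b hab
    obtain ⟨h1, h2⟩ := h.ind (a * (p : ℤ) ^ k) (b * (p : ℤ) ^ k) (by
      rw [mul_smul, mul_smul, hab])
    rw [hcast, e] at h1 h2
    have hpk : (p : ℤ) ^ k ≠ 0 := pow_ne_zero _ hpz
    exact ⟨(mul_dvd_mul_iff_right hpk).1 h1, (mul_dvd_mul_iff_right hpk).1 h2⟩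

variable {G : Type*} [Group G] {ρ : G → V →+ V}

/-- `σ` acts by the integral matrix `(a b; c d)` -/
def IsM (ρ : G → V →+ V) (P Q : V) (σ : G) (a b c d : ℤ) : Prop :=
  ρ σ P = a • P + c • Q ∧ ρ σ Q = b • P + d • Q

theorem IsM.mul (hmul : ∀ σ τ v, ρ (σ * τ) v = ρ σ (ρ τ v)) {P Q : V} {σ τ : G}
    {a b c d a' b' c' d' : ℤ} (h : IsM ρ P Q σ a b c d) (h' : IsM ρ P Q τ a' b' c' d') :
    IsM ρ P Q (σ * τ) (a * a' + b * c') (a * b' + b * d') (c * a' + d * c') (c * b' + d * d') := by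
  obtain ⟨h1, h2⟩ := h
  obtain ⟨h1', h2'⟩ := h'
  refine ⟨?_, ?_⟩
  · rw [hmul, h1', map_add, map_zsmul, map_zsmul, h1, h2]
    module
  · rw [hmul, h2', map_add, map_zsmul, map_zsmul, h1, h2]
    module

omit [Group G] in
theorem IsM.congr {n : ℕ} {P Q : V} (hP : (n : ℤ) • P = 0) (hQ : (n : ℤ) • Q = 0) {σ : G}
    {a b c d a' b' c' d' : ℤ} (h : IsM ρ P Q σ a b c d) (ha : (n : ℤ) ∣ a - a')
    (hb : (n : ℤ) ∣ b - b') (hc : (n : ℤ) ∣ c - c') (hd : (n : ℤ) ∣ d - d') :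
    IsM ρ P Q σ a' b' c' d' := by
  obtain ⟨h1, h2⟩ := h
  refine ⟨?_, ?_⟩
  · rw [h1, smul_congr hP ha, smul_congr hQ hc]
  · rw [h2, smul_congr hP hb, smul_congr hQ hd]

omit [Group G] in
theorem IsM.uniq {n : ℕ} {P Q : V} (hB : Bas n P Q) {σ : G}
    {a b c d a' b' c' d' : ℤ} (h : IsM ρ P Q σ a b c d) (h' : IsM ρ P Q σ a' b' c' d') :
    (n : ℤ) ∣ a - a' ∧ (n : ℤ) ∣ b - b' ∧ (n : ℤ) ∣ c - c' ∧ (n : ℤ) ∣ d - d' := by
  obtain ⟨h1, h2⟩ := h
  obtain ⟨h1', h2'⟩ := h'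
  obtain ⟨k1, k2⟩ := hB.ind (a - a') (c - c') (by
    have : (a - a') • P + (c - c') • Q = (a • P + c • Q) - (a' • P + c' • Q) := by module
    rw [this, ← h1, ← h1', sub_self])
  obtain ⟨k3, k4⟩ := hB.ind (b - b') (d - d') (by
    have : (b - b') • P + (d - d') • Q = (b • P + d • Q) - (b' • P + d' • Q) := by module
    rw [this, ← h2, ← h2', sub_self])
  exact ⟨k1, k3, k2, k4⟩

omit [Group G] in
theorem exists_isM {n : ℕ} {P Q : V} (hB : Bas n P Q) (σ : G) :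
    ∃ a b c d : ℤ, IsM ρ P Q σ a b c d := by
  obtain ⟨a, c, h1⟩ := hB.span (ρ σ P) (by rw [← map_zsmul, hB.hP, map_zero])
  obtain ⟨b, d, h2⟩ := hB.span (ρ σ Q) (by rw [← map_zsmul, hB.hQ, map_zero])
  exact ⟨a, b, c, d, h1, h2⟩

/-- the powers of a matrix congruent to `(1 0; 1 1)` -/
theorem IsM.pow_low (hmul : ∀ σ τ v, ρ (σ * τ) v = ρ σ (ρ τ v)) (hone : ∀ v, ρ 1 v = v)
    {n q : ℕ} (hn : (n : ℤ) ∣ (q : ℤ) * q) {P Q : V} (hP : (n : ℤ) • P = 0) (hQ : (n : ℤ) • Q = 0)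
    {l : G} {y1 y2 y3 y4 : ℤ}
    (h : IsM ρ P Q l (1 + q * y1) (q * y2) (1 + q * y3) (1 + q * y4)) (i : ℕ) :
    IsM ρ P Q (l ^ i) (1 + q * (i * y1 + (i.choose 2) * y2)) (q * (i * y2))
      (i + q * (i * y3 + (i.choose 2) * (y1 + y4) + (i.choose 3) * y2))
      (1 + q * (i * y4 + (i.choose 2) * y2)) := by
  induction i with
  | zero =>
    rw [pow_zero]
    refine ⟨?_, ?_⟩
    · rw [hone]; simp
    · rw [hone]; simp
  | succ i ih =>
    have h2 : ((i + 1).choose 2 : ℤ) = i.choose 2 + i := by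
      rw [Nat.choose_succ_succ' i 1]
      push_cast
      rw [Nat.choose_one_right]
      ring
    have h3 : ((i + 1).choose 3 : ℤ) = i.choose 3 + i.choose 2 := by
      rw [Nat.choose_succ_succ' i 2]
      push_cast
      ring
    rw [pow_succ]
    obtain ⟨w, hw⟩ := hn
    refine (ih.mul hmul h).congr hP hQ ?_ ?_ ?_ ?_
    · rw [h2]
      push_cast
      refine ⟨w * ((i * y1 + (i.choose 2) * y2) * y1 + i * y2 * y3), ?_⟩
      linear_combination ((i * y1 + (i.choose 2) * y2) * y1 + i * y2 * y3) * hw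
    · push_cast
      refine ⟨w * ((i * y1 + (i.choose 2) * y2) * y2 + i * y2 * y4), ?_⟩
      linear_combination ((i * y1 + (i.choose 2) * y2) * y2 + i * y2 * y4) * hw
    · rw [h2, h3]
      push_cast
      refine ⟨w * ((i * y3 + (i.choose 2) * (y1 + y4) + (i.choose 3) * y2) * y1 +
        (i * y4 + (i.choose 2) * y2) * y3), ?_⟩
      linear_combination ((i * y3 + (i.choose 2) * (y1 + y4) + (i.choose 3) * y2) * y1 +
        (i * y4 + (i.choose 2) * y2) * y3) * hw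
    · rw [h2]
      push_cast
      refine ⟨w * ((i * y3 + (i.choose 2) * (y1 + y4) + (i.choose 3) * y2) * y2 +
        (i * y4 + (i.choose 2) * y2) * y4), ?_⟩
      linear_combination ((i * y3 + (i.choose 2) * (y1 + y4) + (i.choose 3) * y2) * y2 +
        (i * y4 + (i.choose 2) * y2) * y4) * hw

/-- the binomial coefficients of a power of a prime `p ≥ 5` -/
theorem choose_dvd {p : ℕ} (hp : p.Prime) (h5 : 5 ≤ p) (k : ℕ) :
    p ∣ (p ^ (k + 1)).choose 2 ∧ p ∣ (p ^ (k + 1)).choose 3 := by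
  have key : ∀ i : ℕ, 1 ≤ i → i < p → p ∣ (p ^ (k + 1)).choose i := by
    intro i hi hip
    have h1 : i * (p ^ (k + 1)).choose i = p ^ (k + 1) * (p ^ (k + 1) - 1).choose (i - 1) := by
      obtain ⟨i', rfl⟩ : ∃ i', i = i' + 1 := ⟨i - 1, by omega⟩
      obtain ⟨m, hm⟩ : ∃ m, p ^ (k + 1) = m + 1 := ⟨p ^ (k + 1) - 1, by
        have := pow_pos hp.pos (k + 1); omega⟩
      rw [hm, Nat.add_sub_cancel, Nat.add_sub_cancel, mul_comm, ← Nat.add_one_mul_choose_eq]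
    have h2 : p ∣ i * (p ^ (k + 1)).choose i := by
      rw [h1]
      exact (dvd_pow_self p (by omega)).mul_right _
    rcases (Nat.Prime.dvd_mul hp).1 h2 with h | h
    · exact absurd (Nat.le_of_dvd (by omega) h) (by omega)
    · exact h
  exact ⟨key 2 (by norm_num) (by omega), key 3 (by norm_num) (by omega)⟩

/-- one step of the lifting -/
theorem lift_step {p k : ℕ} (h5 : 5 ≤ p) (H : ∀ k, Hyp ρ p k)
    (h : ∃ P Q : V, Bas (p ^ (k + 1)) P Q ∧ All ρ (p ^ (k + 1)) 1 P Q) :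
    ∃ P Q : V, Bas (p ^ (k + 2)) P Q ∧ All ρ (p ^ (k + 2)) 1 P Q := by
  have hmul := (H 0).hmul
  have hone := (H 0).hone
  have hp := (H 0).hp
  have hp0 : p ≠ 0 := hp.ne_zero
  have hpz : (p : ℤ) ≠ 0 := by exact_mod_cast hp0
  have hpp : Prime (p : ℤ) := Nat.prime_iff_prime_int.1 hp
  obtain ⟨P', Q', hB', hA'⟩ := h
  obtain ⟨q, hq⟩ : ∃ q, q = p ^ (k + 1) := ⟨_, rfl⟩
  obtain ⟨n, hn⟩ : ∃ n, n = p ^ (k + 2) := ⟨_, rfl⟩
  have hnq : (n : ℤ) = p * q := by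
    rw [hn, hq, pow_succ p (k + 1)]; push_cast; ring
  have hqz : (q : ℤ) ≠ 0 := by
    rw [hq]; exact_mod_cast pow_ne_zero _ hp0
  have hpq : (p : ℤ) ∣ q := by
    rw [hq]; push_cast; exact dvd_pow_self _ (by omega)
  have hqn : (q : ℤ) ∣ n := ⟨p, by rw [hnq]; ring⟩
  have hnqq : (n : ℤ) ∣ (q : ℤ) * q := by
    rw [hnq]; exact mul_dvd_mul_right hpq _
  -- divisibility
  have hBd := bas_down hp0 hB'
  have hdiv : ∀ R : V, ((p ^ (k + 1) : ℕ) : ℤ) • R = 0 → ∃ S : V, (p : ℤ) • S = R := by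
    intro R hR
    obtain ⟨P₂, hP₂⟩ := (H (k + 1)).hdiv _ hBd.hP
    obtain ⟨Q₂, hQ₂⟩ := (H (k + 1)).hdiv _ hBd.hQ
    have hB2 : Bas (p ^ (k + 1 + 1)) P₂ Q₂ := by
      refine Bas.lift (k + 1) ?_ ?_ (by rw [hP₂, hQ₂]; exact hBd)
      · rw [pow_succ', mul_smul, hP₂]; exact hBd.hP
      · rw [pow_succ', mul_smul, hQ₂]; exact hBd.hQ
    obtain ⟨a, b, hab⟩ := hB2.span R (by
      rw [pow_succ]
      push_cast at hR ⊢
      rw [mul_comm, mul_smul, hR, smul_zero])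
    obtain ⟨h1, h2⟩ := hB2.ind (((p ^ (k + 1) : ℕ) : ℤ) * a) (((p ^ (k + 1) : ℕ) : ℤ) * b) (by
      rw [mul_smul, mul_smul, ← smul_add, ← hab, hR])
    rw [pow_succ p (k + 1)] at h1 h2
    push_cast at h1 h2
    have hz : (p : ℤ) ^ (k + 1) ≠ 0 := pow_ne_zero _ hpz
    obtain ⟨a', ha'⟩ := (mul_dvd_mul_iff_left hz).1 h1
    obtain ⟨b', hb'⟩ := (mul_dvd_mul_iff_left hz).1 h2
    refine ⟨a' • P₂ + b' • Q₂, ?_⟩
    rw [hab, ha', hb']
    module
  obtain ⟨P, hP⟩ := hdiv P' hB'.hP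
  obtain ⟨Q, hQ⟩ := hdiv Q' hB'.hQ
  have hB : Bas n P Q := by
    rw [hn]
    have e1 : ((p : ℤ) ^ (k + 1)) • P = ((p : ℤ) ^ k) • P' := by
      rw [pow_succ, mul_smul, hP]
    have e2 : ((p : ℤ) ^ (k + 1)) • Q = ((p : ℤ) ^ k) • Q' := by
      rw [pow_succ, mul_smul, hQ]
    refine Bas.lift (k + 1) ?_ ?_ (by rw [e1, e2]; exact hBd)
    · rw [pow_succ', mul_smul, e1]; exact hBd.hP
    · rw [pow_succ', mul_smul, e2]; exact hBd.hQ
  -- congruences modulo `q`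
  have hcong : ∀ (σ : G) (a b c d x y z w : ℤ), IsM ρ P Q σ a b c d →
      ρ σ P' = x • P' + z • Q' → ρ σ Q' = y • P' + w • Q' →
      (q : ℤ) ∣ a - x ∧ (q : ℤ) ∣ b - y ∧ (q : ℤ) ∣ c - z ∧ (q : ℤ) ∣ d - w := by
    rintro σ a b c d x y z w ⟨h1, h2⟩ h3 h4
    rw [← hP, map_zsmul, h1, ← hQ] at h3
    rw [← hP, ← hQ, map_zsmul, h2] at h4
    obtain ⟨k1, k2⟩ := hB.ind (p * (a - x)) (p * (c - z)) (by
      have : ((p : ℤ) * (a - x)) • P + ((p : ℤ) * (c - z)) • Q =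
          (p : ℤ) • (a • P + c • Q) - (x • (p : ℤ) • P + z • (p : ℤ) • Q) := by module
      rw [this, h3, sub_self])
    obtain ⟨k3, k4⟩ := hB.ind (p * (b - y)) (p * (d - w)) (by
      have : ((p : ℤ) * (b - y)) • P + ((p : ℤ) * (d - w)) • Q =
          (p : ℤ) • (b • P + d • Q) - (y • (p : ℤ) • P + w • (p : ℤ) • Q) := by module
      rw [this, h4, sub_self])
    rw [hnq] at k1 k2 k3 k4
    exact ⟨(mul_dvd_mul_iff_left hpz).1 k1, (mul_dvd_mul_iff_left hpz).1 k3,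
      (mul_dvd_mul_iff_left hpz).1 k2, (mul_dvd_mul_iff_left hpz).1 k4⟩
  have hreal : ∀ x y z w : ℤ, (q : ℤ) ∣ x * w - y * z - 1 → ∃ (σ : G) (a b c d : ℤ),
      IsM ρ P Q σ a b c d ∧ (q : ℤ) ∣ a - x ∧ (q : ℤ) ∣ b - y ∧ (q : ℤ) ∣ c - z ∧
        (q : ℤ) ∣ d - w := by
    intro x y z w hdet
    obtain ⟨σ, h1, h2, -⟩ := hA' x y z w (by rw [← hq]; exact hdet)
    obtain ⟨a, b, c, d, hM⟩ := exists_isM (ρ := ρ) hB σ
    exact ⟨σ, a, b, c, d, hM, hcong σ a b c d x y z w hM h1 h2⟩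
  -- the lower element
  obtain ⟨l, la, lb, lc, ld, hl, ⟨y1, hy1⟩, ⟨y2, hy2⟩, ⟨y3, hy3⟩, ⟨y4, hy4⟩⟩ :=
    hreal 1 0 1 1 (by norm_num)
  have hκ : IsM ρ P Q (l ^ q) 1 0 q 1 := by
    have h1 : IsM ρ P Q l (1 + q * y1) (q * y2) (1 + q * y3) (1 + q * y4) := by
      have e1 : la = 1 + q * y1 := by linear_combination hy1
      have e2 : lb = q * y2 := by linear_combination hy2
      have e3 : lc = 1 + q * y3 := by linear_combination hy3
      have e4 : ld = 1 + q * y4 := by linear_combination hy4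
      rw [e1, e2, e3, e4] at hl
      exact hl
    obtain ⟨⟨c2, hc2⟩, ⟨c3, hc3⟩⟩ := choose_dvd hp h5 k
    rw [← hq] at hc2 hc3
    obtain ⟨q', hq'⟩ := hpq
    refine (h1.pow_low hmul hone hnqq hB.hP hB.hQ q).congr hB.hP hB.hQ ?_ ?_ ?_ ?_
    · rw [hc2, hnq]
      push_cast
      refine ⟨q' * y1 + c2 * y2, ?_⟩
      linear_combination (q * y1) * hq'
    · rw [hnq]
      refine ⟨q' * y2, ?_⟩
      linear_combination (q * y2) * hq'
    · rw [hc2, hc3, hnq]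
      push_cast
      refine ⟨q' * y3 + c2 * (y1 + y4) + c3 * y2, ?_⟩
      linear_combination (q * y3) * hq'
    · rw [hc2, hnq]
      push_cast
      refine ⟨q' * y4 + c2 * y2, ?_⟩
      linear_combination (q * y4) * hq'
  have hκc : ∀ c : ℕ, IsM ρ P Q ((l ^ q) ^ c) 1 0 (c * q) 1 := by
    intro c
    induction c with
    | zero =>
      rw [pow_zero]
      refine ⟨?_, ?_⟩
      · rw [hone]; simp
      · rw [hone]; simp
    | succ c ih =>
      rw [pow_succ]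
      refine (ih.mul hmul hκ).congr hB.hP hB.hQ ?_ ?_ ?_ ?_
      · norm_num
      · norm_num
      · push_cast; ring_nf; exact dvd_zero _
      · norm_num
  -- halves and thirds
  have hp2 : ¬ (p : ℤ) ∣ 2 := by
    intro h
    have := Int.le_of_dvd (by norm_num) h
    omega
  have hp3 : ¬ (p : ℤ) ∣ 3 := by
    intro h
    have := Int.le_of_dvd (by norm_num) h
    omega
  have inv : ∀ x : ℤ, ¬ (p : ℤ) ∣ x → ∃ y : ℤ, (q : ℤ) ∣ x * y - 1 := by
    intro x hx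
    have hc : IsCoprime x (q : ℤ) := by
      rw [hq]; push_cast
      exact ((hpp.coprime_iff_not_dvd.2 hx).symm).pow_right
    obtain ⟨u, v, huv⟩ := hc
    exact ⟨u, -v, by linear_combination huv⟩
  have canc : ∀ x y : ℤ, ¬ (p : ℤ) ∣ x → ∀ N : ℕ, (∃ s, N = p ^ s) → (N : ℤ) ∣ x * y →
      (N : ℤ) ∣ y := by
    intro x y hx N hN h
    obtain ⟨s, rfl⟩ := hN
    have hc : IsCoprime ((p ^ s : ℕ) : ℤ) x := by
      push_cast
      exact (hpp.coprime_iff_not_dvd.2 hx).pow_left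
    exact hc.dvd_of_dvd_mul_left h
  obtain ⟨t, ht⟩ := inv 2 hp2
  obtain ⟨x, hx⟩ := inv 3 hp3
  -- the commutator
  obtain ⟨δ, da, db, dc, dd, hδ, hd1, hd2, hd3, hd4⟩ := hreal 2 0 0 t (by
    obtain ⟨s, hs⟩ := ht; exact ⟨s, by linear_combination hs⟩)
  obtain ⟨ν, na, nb, nc, nd, hν, hn1, hn2, hn3, hn4⟩ := hreal 1 x 0 1 (by norm_num)
  obtain ⟨σ, hσ⟩ : ∃ σ, σ = δ * ν * δ⁻¹ * ν⁻¹ := ⟨_, rfl⟩
  obtain ⟨a, b, c, d, hM⟩ := exists_isM (ρ := ρ) hB σ
  have hrel : σ * (ν * δ) = δ * ν := by rw [hσ]; group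
  have hc1 := hM.mul hmul (hν.mul hmul hδ)
  rw [hrel] at hc1
  obtain ⟨r1, r2, r3, r4⟩ := IsM.uniq hB hc1 (hδ.mul hmul hν)
  have hpn : (p : ℤ) ∣ n := ⟨q, hnq⟩
  -- determinants
  have hdd : ¬ (p : ℤ) ∣ (da * dd - db * dc) * (na * nd - nb * nc) := by
    intro h
    rcases hpp.dvd_or_dvd h with h | h
    · apply hpp.not_isUnit
      apply isUnit_of_dvd_one
      have e1 := (hpq.trans hd1)
      have e2 := (hpq.trans hd2)
      have e3 := (hpq.trans hd3)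
      have e4 := (hpq.trans hd4)
      have e5 := (hpq.trans ht)
      obtain ⟨s1, s1h⟩ := e1
      obtain ⟨s2, s2h⟩ := e2
      obtain ⟨s3, s3h⟩ := e3
      obtain ⟨s4, s4h⟩ := e4
      obtain ⟨s5, s5h⟩ := e5
      obtain ⟨s, sh⟩ := h
      refine ⟨s - s5 - s1 * t - da * s4 + s2 * dc + 0 * s3, ?_⟩
      linear_combination sh - s5h - t * s1h - da * s4h + dc * s2h
    · apply hpp.not_isUnit
      apply isUnit_of_dvd_one
      have e1 := (hpq.trans hn1)
      have e2 := (hpq.trans hn2)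
      have e3 := (hpq.trans hn3)
      have e4 := (hpq.trans hn4)
      obtain ⟨s1, s1h⟩ := e1
      obtain ⟨s2, s2h⟩ := e2
      obtain ⟨s3, s3h⟩ := e3
      obtain ⟨s4, s4h⟩ := e4
      obtain ⟨s, sh⟩ := h
      refine ⟨s - s1 - na * s4 + nb * s3, ?_⟩
      linear_combination sh - s1h - na * s4h + nb * s3h
  have hdet : (n : ℤ) ∣ a * d - b * c - 1 := by
    refine canc ((da * dd - db * dc) * (na * nd - nb * nc)) _ hdd n ⟨k + 2, hn⟩ ?_
    obtain ⟨s1, s1h⟩ := r1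
    obtain ⟨s2, s2h⟩ := r2
    obtain ⟨s3, s3h⟩ := r3
    obtain ⟨s4, s4h⟩ := r4
    obtain ⟨X1, hX1⟩ : ∃ X, X = da * na + db * nc := ⟨_, rfl⟩
    obtain ⟨X2, hX2⟩ : ∃ X, X = da * nb + db * nd := ⟨_, rfl⟩
    obtain ⟨X3, hX3⟩ : ∃ X, X = dc * na + dd * nc := ⟨_, rfl⟩
    obtain ⟨X4, hX4⟩ : ∃ X, X = dc * nb + dd * nd := ⟨_, rfl⟩
    refine ⟨s1 * (X4 + n * s4) + s4 * X1 - s2 * (X3 + n * s3) - s3 * X2, ?_⟩
    rw [← hX1] at s1h
    rw [← hX2] at s2h
    rw [← hX3] at s3h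
    rw [← hX4] at s4h
    have g1 : a * (na * da + nb * dc) + b * (nc * da + nd * dc) = X1 + n * s1 := by
      linear_combination s1h
    have g2 : a * (na * db + nb * dd) + b * (nc * db + nd * dd) = X2 + n * s2 := by
      linear_combination s2h
    have g3 : c * (na * da + nb * dc) + d * (nc * da + nd * dc) = X3 + n * s3 := by
      linear_combination s3h
    have g4 : c * (na * db + nb * dd) + d * (nc * db + nd * dd) = X4 + n * s4 := by
      linear_combination s4h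
    have g5 : (a * d - b * c) * ((da * dd - db * dc) * (na * nd - nb * nc)) =
        (X1 + n * s1) * (X4 + n * s4) - (X2 + n * s2) * (X3 + n * s3) := by
      rw [← g1, ← g2, ← g3, ← g4]; ring
    have g6 : (da * dd - db * dc) * (na * nd - nb * nc) = X1 * X4 - X2 * X3 := by
      rw [hX1, hX2, hX3, hX4]; ring
    have g7 : (da * dd - db * dc) * (na * nd - nb * nc) * (a * d - b * c - 1) =
        (a * d - b * c) * ((da * dd - db * dc) * (na * nd - nb * nc)) -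
          (da * dd - db * dc) * (na * nd - nb * nc) := by ring
    rw [g7, g5, g6]
    ring
  -- the matrix of the commutator modulo `q`
  have hmod : (q : ℤ) ∣ a - 1 ∧ (q : ℤ) ∣ b - 1 ∧ (q : ℤ) ∣ c ∧ (q : ℤ) ∣ d - 1 := by
    have r1' := hqn.trans r1
    have r2' := hqn.trans r2
    have r3' := hqn.trans r3
    have r4' := hqn.trans r4
    simp only [← (ZMod.intCast_zmod_eq_zero_iff_dvd _ q)] at *
    push_cast at *
    have e1 : (da : ZMod q) = 2 := sub_eq_zero.1 hd1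
    have e2 : (db : ZMod q) = 0 := by simpa using hd2
    have e3 : (dc : ZMod q) = 0 := by simpa using hd3
    have e4 : (dd : ZMod q) = t := sub_eq_zero.1 hd4
    have f1 : (na : ZMod q) = 1 := sub_eq_zero.1 hn1
    have f2 : (nb : ZMod q) = x := sub_eq_zero.1 hn2
    have f3 : (nc : ZMod q) = 0 := by simpa using hn3
    have f4 : (nd : ZMod q) = 1 := sub_eq_zero.1 hn4
    have t2 : (2 : ZMod q) * t = 1 := sub_eq_zero.1 ht
    have x3 : (3 : ZMod q) * x = 1 := sub_eq_zero.1 hx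
    simp only [e1, e2, e3, e4, f1, f2, f3, f4] at r1' r2' r3' r4'
    have ha : (a : ZMod q) = 1 := by linear_combination t * r1' + (1 - a) * t2
    have hc : (c : ZMod q) = 0 := by linear_combination t * r3' - c * t2
    have hd : (d : ZMod q) = 1 := by
      linear_combination 2 * r4' - 2 * x * t * hc + (1 - d) * t2
    have hb : (b : ZMod q) = 1 := by
      linear_combination 2 * r2' - 2 * x * t * ha + (-x - b) * t2 + x3
    rw [ha, hb, hc, hd]
    simp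
  obtain ⟨⟨a', ha'⟩, ⟨b', hb'⟩, ⟨c', hc'⟩, ⟨d', hd'⟩⟩ := hmod
  -- correct the trace
  obtain ⟨s, hs⟩ : ∃ s : ℕ, (p : ℤ) ∣ (a' + d') + s := by
    have hpos : (0 : ℤ) < p := by exact_mod_cast hp.pos
    refine ⟨((-(a' + d')) % p).toNat, ?_⟩
    rw [Int.toNat_of_nonneg (Int.emod_nonneg _ hpos.ne')]
    have := Int.emod_add_mul_ediv (-(a' + d')) p
    exact ⟨-((-(a' + d')) / p), by linear_combination this⟩
  obtain ⟨σ', hσ'⟩ : ∃ σ', σ' = σ * (l ^ q) ^ s := ⟨_, rfl⟩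
  have hM' := hM.mul hmul (hκc s)
  rw [← hσ'] at hM'
  obtain ⟨A, hA⟩ : ∃ A, A = a * 1 + b * (s * q) := ⟨_, rfl⟩
  obtain ⟨B, hBB⟩ : ∃ B, B = a * 0 + b * 1 := ⟨_, rfl⟩
  obtain ⟨C, hC⟩ : ∃ C, C = c * 1 + d * (s * q) := ⟨_, rfl⟩
  obtain ⟨D, hD⟩ : ∃ D, D = c * 0 + d * 1 := ⟨_, rfl⟩
  rw [← hA, ← hBB, ← hC, ← hD] at hM'
  have hdet' : (n : ℤ) ∣ A * D - B * C - 1 := by
    have : A * D - B * C - 1 = a * d - b * c - 1 := by
      rw [hA, hBB, hC, hD]; ring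
    rw [this]; exact hdet
  have htr' : (n : ℤ) ∣ A + D - 2 := by
    obtain ⟨s', hs'⟩ := hs
    obtain ⟨q', hq'⟩ := hpq
    rw [hnq]
    refine ⟨s' + q' * b' * s, ?_⟩
    have e1 : a = 1 + q * a' := by linear_combination ha'
    have e2 : b = 1 + q * b' := by linear_combination hb'
    have e4 : d = 1 + q * d' := by linear_combination hd'
    rw [hA, hD, e1, e2, e4]
    linear_combination q * hs' + (q * b' * s) * hq'
  obtain ⟨M1, M2⟩ := hM'
  have hzero : ∀ u w : ℤ, ((n : ℤ) * u) • P + ((n : ℤ) * w) • Q = 0 := by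
    intro u w
    have : ((n : ℤ) * u) • P + ((n : ℤ) * w) • Q = u • ((n : ℤ) • P) + w • ((n : ℤ) • Q) := by
      module
    rw [this, hB.hP, hB.hQ, smul_zero, smul_zero, add_zero]
  have hN : ∀ z : V, (n : ℤ) • z = 0 → ρ σ' (ρ σ' z - z) = ρ σ' z - z := by
    intro z hz
    obtain ⟨α, β, rfl⟩ := hB.span z hz
    have e1 : ρ σ' (ρ σ' P - P) = ρ σ' P - P := by
      rw [map_sub, M1, map_add, map_zsmul, map_zsmul, M1, M2]
      obtain ⟨w1, hw1⟩ := hdet'
      obtain ⟨w2, hw2⟩ := htr'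
      have h1 : A * A + B * C - A - (A - 1) = n * (A * w2 - w1) := by
        linear_combination A * hw2 - hw1
      have h2 : C * A + D * C - C - C = n * (C * w2) := by
        linear_combination C * hw2
      have h3 : A • (A • P + C • Q) + C • (B • P + D • Q) - (A • P + C • Q) -
          (A • P + C • Q - P) = (A * A + B * C - A - (A - 1)) • P + (C * A + D * C - C - C) • Q := by
        module
      have h4 : A • (A • P + C • Q) + C • (B • P + D • Q) - (A • P + C • Q) -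
          (A • P + C • Q - P) = 0 := by
        rw [h3, h1, h2]
        exact hzero _ _
      exact sub_eq_zero.1 h4
    have e2 : ρ σ' (ρ σ' Q - Q) = ρ σ' Q - Q := by
      rw [map_sub, M2, map_add, map_zsmul, map_zsmul, M1, M2]
      obtain ⟨w1, hw1⟩ := hdet'
      obtain ⟨w2, hw2⟩ := htr'
      have h1 : B * A + D * B - B - B = n * (B * w2) := by
        linear_combination B * hw2
      have h2 : B * C + D * D - D - (D - 1) = n * (D * w2 - w1) := by
        linear_combination D * hw2 - hw1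
      have h3 : B • (A • P + C • Q) + D • (B • P + D • Q) - (B • P + D • Q) -
          (B • P + D • Q - Q) = (B * A + D * B - B - B) • P + (B * C + D * D - D - (D - 1)) • Q := by
        module
      have h4 : B • (A • P + C • Q) + D • (B • P + D • Q) - (B • P + D • Q) -
          (B • P + D • Q - Q) = 0 := by
        rw [h3, h1, h2]
        exact hzero _ _
      exact sub_eq_zero.1 h4
    have e3 : ρ σ' (α • P + β • Q) - (α • P + β • Q) = α • (ρ σ' P - P) + β • (ρ σ' Q - Q) := by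
      rw [map_add, map_zsmul, map_zsmul]; module
    rw [e3, map_add, map_zsmul, map_zsmul, e1, e2]
  obtain ⟨P₀, Q₀, hB₀, hA₀⟩ := all_prime (ρ := ρ) (m := 1) (H (k + 1)) (σ := σ')
    (fun R hR => by
      have : R = 0 := by simpa using hR
      rw [this, map_zero])
    (fun R hR => hN R (by rw [hn]; push_cast; exact hR))
    ⟨(q : ℤ) • Q, by rw [smul_smul, ← hnq]; exact hB.hQ, by
      intro hcon
      rw [map_zsmul, M2] at hcon
      obtain ⟨k1, -⟩ := hB.ind (q * B) (q * (D - 1)) (by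
        have : ((q : ℤ) * B) • P + ((q : ℤ) * (D - 1)) • Q =
            (q : ℤ) • (B • P + D • Q) - (q : ℤ) • Q := by module
        rw [this, hcon, sub_self])
      rw [hnq, mul_comm (p : ℤ)] at k1
      have k2 := (mul_dvd_mul_iff_left hqz).1 k1
      have e2 : B = 1 + q * b' := by rw [hBB]; linear_combination hb'
      rw [e2] at k2
      have k3 : (p : ℤ) ∣ 1 := by
        have := Int.dvd_sub k2 (hpq.mul_right b')
        rwa [add_sub_cancel_right] at this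
      exact hpp.not_isUnit (isUnit_of_dvd_one k3)⟩
  exact ⟨P₀, Q₀, hB₀, hA₀⟩

/-- **from the level `p` to all powers of `p`** -/
theorem lift {p : ℕ} (h5 : 5 ≤ p) (H : ∀ k, Hyp ρ p k)
    (h : ∃ P Q : V, Bas p P Q ∧ All ρ p 1 P Q) (k : ℕ) :
    ∃ P Q : V, Bas (p ^ (k + 1)) P Q ∧ All ρ (p ^ (k + 1)) 1 P Q := by
  induction k with
  | zero => rw [zero_add, pow_one]; exact h
  | succ k ih => exact lift_step h5 H ih

end Pool.Agent.E8helper76.UB
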