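import Pool.Agent.E8helper76.UB.Core

/-!
# The number of the elements killed by an integer
-/

set_option autoImplicit false

namespace Pool.Agent.E8helper76.UB

open Pool.Agent.Q19.SU.Gen

variable {r : ℕ} {V : Fin r → Type*} [∀ i, AddCommGroup (V i)] {g : Fin r → ℕ}

/-- the elements of the product killed by `n` -/
theorem tors_card {n : ℕ} (hn : 0 < n) (h : ∀ i, ∃ P Q : V i, Bas n P Q) :
    {x : ∀ i, Fin (g i) → V i | (n : ℤ) • x = 0}.Finite ∧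
      {x : ∀ i, Fin (g i) → V i | (n : ℤ) • x = 0}.ncard ≤ n ^ (2 * ∑ i, g i) := by
  classical
  choose P Q hB using h
  obtain ⟨f, hf⟩ : ∃ f : (∀ i, Fin (g i) → Fin n × Fin n) → (∀ i, Fin (g i) → V i),
      f = fun t i u => ((t i u).1 : ℤ) • P i + ((t i u).2 : ℤ) • Q i := ⟨_, rfl⟩
  have hpos : (0 : ℤ) < n := by exact_mod_cast hn
  have hmod : ∀ (i : Fin r) (T : V i), (n : ℤ) • T = 0 → ∀ α : ℤ, ∃ k : Fin n,
      ((k : ℕ) : ℤ) • T = α • T := by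
    intro i T hT α
    have h1 : (α % n).toNat < n := by
      have := Int.emod_lt_of_pos α hpos
      have := Int.emod_nonneg α hpos.ne'
      omega
    refine ⟨⟨(α % n).toNat, h1⟩, ?_⟩
    refine smul_congr hT ?_
    show (n : ℤ) ∣ (((α % n).toNat : ℕ) : ℤ) - α
    rw [Int.toNat_of_nonneg (Int.emod_nonneg _ hpos.ne')]
    exact ⟨-(α / n), by have := Int.emod_add_mul_ediv α n; linear_combination this⟩
  have hsub : {x : ∀ i, Fin (g i) → V i | (n : ℤ) • x = 0} ⊆ Set.range f := by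
    intro x hx
    have h1 : ∀ i u, ∃ k : Fin n × Fin n, ((k.1 : ℕ) : ℤ) • P i + ((k.2 : ℕ) : ℤ) • Q i = x i u := by
      intro i u
      obtain ⟨α, β, hαβ⟩ := (hB i).span (x i u) (congrFun (congrFun hx i) u)
      obtain ⟨k1, hk1⟩ := hmod i (P i) (hB i).hP α
      obtain ⟨k2, hk2⟩ := hmod i (Q i) (hB i).hQ β
      exact ⟨(k1, k2), by rw [hk1, hk2, hαβ]⟩
    choose t ht using h1
    exact ⟨t, by rw [hf]; funext i u; exact ht i u⟩
  have hfin : (Set.range f).Finite := Set.finite_range f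
  refine ⟨hfin.subset hsub, (Set.ncard_le_ncard hsub hfin).trans ?_⟩
  have h2 : (Set.range f).ncard ≤ Nat.card (∀ i, Fin (g i) → Fin n × Fin n) := by
    rw [← Set.image_univ]
    refine (Set.ncard_image_le Set.finite_univ).trans ?_
    rw [Set.ncard_univ]
  refine h2.trans (le_of_eq ?_)
  rw [Nat.card_eq_fintype_card, Fintype.card_pi, Finset.mul_sum, ← Finset.prod_pow_eq_pow_sum]
  refine Finset.prod_congr rfl fun i _ => ?_
  rw [Fintype.card_fun, Fintype.card_prod, Fintype.card_fin, Fintype.card_fin, ← pow_two, ← pow_mul]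

/-- the elements of the quotient killed by `n` -/
theorem quot_card {Γ : AddSubgroup (∀ i, Fin (g i) → V i)}
    (hΓ : (Γ : Set (∀ i, Fin (g i) → V i)).Finite) {n : ℕ} (hn : 0 < n)
    (h : ∀ i (m : ℕ), 0 < m → ∃ P Q : V i, Bas m P Q) :
    {z : (∀ i, Fin (g i) → V i) ⧸ Γ | n • z = 0}.Finite ∧
      {z : (∀ i, Fin (g i) → V i) ⧸ Γ | n • z = 0}.ncard ≤ n ^ (2 * ∑ i, g i) := by
  classical
  have : Finite Γ := hΓ.to_subtype
  obtain ⟨c, hc, hcΓ⟩ : ∃ c : ℕ, 0 < c ∧ ∀ x ∈ Γ, (c : ℤ) • x = 0 := by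
    refine ⟨Nat.card Γ, Nat.card_pos, fun x hx => ?_⟩
    have h1 : Nat.card Γ • (⟨x, hx⟩ : Γ) = 0 := card_nsmul_eq_zero'
    have h2 := congrArg Subtype.val h1
    rw [natCast_zsmul]
    exact h2
  have hdiv : ∀ γ ∈ Γ, ∃ y : ∀ i, Fin (g i) → V i, (n : ℤ) • y = γ := by
    intro γ hγ
    have h1 : ∀ i u, ∃ w : V i, (n : ℤ) • w = γ i u := fun i u =>
      div_tors (h i) hc hn (congrFun (congrFun (hcΓ γ hγ) i) u)
    choose y hy using h1
    exact ⟨y, by funext i u; exact hy i u⟩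
  choose! s hs using hdiv
  obtain ⟨hTfin, hTcard⟩ := tors_card (g := g) hn (fun i => h i n hn)
  obtain ⟨T, hT⟩ : ∃ T : Set (∀ i, Fin (g i) → V i), T = {x | (n : ℤ) • x = 0} := ⟨_, rfl⟩
  rw [← hT] at hTfin hTcard
  have : Finite T := hTfin.to_subtype
  -- the map into the product
  obtain ⟨Z, hZ⟩ : ∃ Z : Set ((∀ i, Fin (g i) → V i) ⧸ Γ), Z = {z | n • z = 0} := ⟨_, rfl⟩
  rw [← hZ]
  have hrep : ∀ w : Z × Γ, (n : ℤ) • (Quotient.out (w.1 : (∀ i, Fin (g i) → V i) ⧸ Γ) +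
      (w.2 : ∀ i, Fin (g i) → V i)) ∈ Γ := by
    rintro ⟨⟨z, hz⟩, ⟨γ, hγ⟩⟩
    rw [hZ] at hz
    have h1 : n • z = 0 := hz
    rw [smul_add]
    refine Γ.add_mem ?_ (Γ.zsmul_mem hγ _)
    rw [← QuotientAddGroup.eq_zero_iff, QuotientAddGroup.mk_zsmul, natCast_zsmul]
    show n • ((Quotient.out z : ∀ i, Fin (g i) → V i) : (∀ i, Fin (g i) → V i) ⧸ Γ) = 0
    rw [QuotientAddGroup.out_eq', h1]
  obtain ⟨F, hF⟩ : ∃ F : Z × Γ → Γ × T, ∀ w, ((F w).1 : ∀ i, Fin (g i) → V i) =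
      (n : ℤ) • (Quotient.out (w.1 : (∀ i, Fin (g i) → V i) ⧸ Γ) + (w.2 : ∀ i, Fin (g i) → V i)) ∧
      ((F w).2 : ∀ i, Fin (g i) → V i) = (Quotient.out (w.1 : (∀ i, Fin (g i) → V i) ⧸ Γ) +
        (w.2 : ∀ i, Fin (g i) → V i)) - s ((n : ℤ) • (Quotient.out (w.1 :
          (∀ i, Fin (g i) → V i) ⧸ Γ) + (w.2 : ∀ i, Fin (g i) → V i))) := by
    refine ⟨fun w => (⟨_, hrep w⟩, ⟨(Quotient.out (w.1 : (∀ i, Fin (g i) → V i) ⧸ Γ) +
        (w.2 : ∀ i, Fin (g i) → V i)) - s ((n : ℤ) • (Quotient.out (w.1 :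
          (∀ i, Fin (g i) → V i) ⧸ Γ) + (w.2 : ∀ i, Fin (g i) → V i))), ?_⟩), fun w => ⟨rfl, rfl⟩⟩
    rw [hT]
    show (n : ℤ) • _ = 0
    rw [smul_sub, hs _ (hrep w), sub_self]
  have hinj : Function.Injective F := by
    intro w w' hww
    have h1 := (hF w).1
    have h2 := (hF w).2
    have h1' := (hF w').1
    have h2' := (hF w').2
    rw [hww, h1'] at h1
    rw [hww, h2', h1] at h2
    have h3 := sub_left_injective h2
    obtain ⟨z, γ⟩ := w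
    obtain ⟨z', γ'⟩ := w'
    simp only at h3
    have h4 := congrArg (fun x : (∀ i, Fin (g i) → V i) => (x : (∀ i, Fin (g i) → V i) ⧸ Γ)) h3
    simp only [QuotientAddGroup.mk_add, QuotientAddGroup.out_eq',
      (QuotientAddGroup.eq_zero_iff _).2 γ.2, (QuotientAddGroup.eq_zero_iff _).2 γ'.2,
      add_zero] at h4
    have h5 : z = z' := Subtype.ext h4.symm
    subst h5
    have h6 : γ = γ' := Subtype.ext (add_left_cancel h3).symm
    rw [h6]
  have : Nonempty Γ := ⟨0⟩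
  have hfinZΓ : Finite (Z × Γ) := Finite.of_injective F hinj
  have hfinZ : Finite Z := Finite.of_injective (fun z : Z => ((z, (0 : Γ)) : Z × Γ))
    fun z z' h => (Prod.mk.inj h).1
  refine ⟨Set.toFinite Z, ?_⟩
  have h1 := Nat.card_le_card_of_injective F hinj
  rw [Nat.card_prod, Nat.card_prod, mul_comm] at h1
  have h2 : Nat.card Z ≤ Nat.card T := Nat.le_of_mul_le_mul_left h1 Nat.card_pos
  have h3 : Z.ncard ≤ T.ncard := h2
  exact h3.trans hTcard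

variable {G : Type*} [Group G] {ρ : ∀ i, G → V i →+ V i} {H : Subgroup G} {q : Fin r → ℕ}
  {Γ : AddSubgroup (∀ i, Fin (g i) → V i)}
  {a : H →* AddMonoid.End ((∀ i, Fin (g i) → V i) ⧸ Γ)}

/-- **bounded torsion** -/
theorem Form.size (hF : Full ρ q) (F : Form ρ g H Γ a) (hg : ∀ i, 1 ≤ g i) {D : ℕ}
    (hH : H.index ≠ 0) (hD : H.index ≤ D) {d : ℕ} (hd : d = ∑ i, g i) :
    (∀ z : (∀ i, Fin (g i) → V i) ⧸ Γ, (∀ σ : H, a σ z = z) → IsOfFinAddOrder z →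
      addOrderOf z ≤ (D * (2 * d).factorial) ^ (2 * d * (d + 1))) ∧
    {z : (∀ i, Fin (g i) → V i) ⧸ Γ | (∀ σ : H, a σ z = z) ∧ IsOfFinAddOrder z}.Finite ∧
    {z : (∀ i, Fin (g i) → V i) ⧸ Γ | (∀ σ : H, a σ z = z) ∧ IsOfFinAddOrder z}.ncard ≤
      ((D * (2 * d).factorial) ^ (2 * d * (d + 1))) ^ (2 * d) := by
  have hr : r ≤ d := by
    rw [hd]
    calc r = ∑ _i : Fin r, 1 := by simp
      _ ≤ ∑ i, g i := Finset.sum_le_sum fun i _ => hg i
  have hgd : ∀ i, g i ≤ d := fun i => by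
    rw [hd]; exact Finset.single_le_sum (fun _ _ => Nat.zero_le _) (Finset.mem_univ i)
  obtain ⟨e, he⟩ : ∃ e, e = D * (2 * d).factorial := ⟨_, rfl⟩
  have he0 : 0 < e := by
    rw [he]
    exact Nat.mul_pos (lt_of_lt_of_le (Nat.pos_of_ne_zero hH) hD) (Nat.factorial_pos _)
  obtain ⟨B, hB⟩ : ∃ B, B = e ^ (2 * d * (d + 1)) := ⟨_, rfl⟩
  rw [← he, ← hB]
  have key : ∀ z : (∀ i, Fin (g i) → V i) ⧸ Γ, (∀ σ : H, a σ z = z) → IsOfFinAddOrder z →
      addOrderOf z ≤ B := by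
    intro z hz hfin
    refine (F.bound hF hgd hH hD hz hfin).trans ?_
    rw [← he, hB]
    exact Nat.pow_le_pow_right he0 (Nat.mul_le_mul (Nat.mul_le_mul_left _ hr)
      (Nat.succ_le_succ hr))
  obtain ⟨S, hS⟩ : ∃ S : AddSubgroup ((∀ i, Fin (g i) → V i) ⧸ Γ), ∀ z, z ∈ S ↔
      ((∀ σ : H, a σ z = z) ∧ IsOfFinAddOrder z) :=
    ⟨{ carrier := {z | (∀ σ : H, a σ z = z) ∧ IsOfFinAddOrder z}
       zero_mem' := ⟨fun σ => map_zero _, IsOfFinAddOrder.zero⟩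
       add_mem' := by
        rintro x y ⟨h1, h2⟩ ⟨h3, h4⟩
        exact ⟨fun σ => by rw [map_add, h1 σ, h3 σ], h2.add h4⟩
       neg_mem' := by
        rintro x ⟨h1, h2⟩
        exact ⟨fun σ => by rw [map_neg, h1 σ], h2.neg⟩ },
      fun z => Iff.rfl⟩
  have hex : AddMonoid.ExponentExists S := ⟨B.factorial, Nat.factorial_pos _, fun z => by
    apply Subtype.ext
    have h1 := (hS z).1 z.2
    have h2 := key z h1.1 h1.2
    have h3 : addOrderOf (z : (∀ i, Fin (g i) → V i) ⧸ Γ) ∣ B.factorial :=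
      Nat.dvd_factorial h1.2.addOrderOf_pos h2
    exact addOrderOf_dvd_iff_nsmul_eq_zero.1 h3⟩
  obtain ⟨z₀, hz₀⟩ := AddMonoid.exists_addOrderOf_eq_exponent hex
  obtain ⟨n, hn⟩ : ∃ n, n = AddMonoid.exponent S := ⟨_, rfl⟩
  have hn0 : 0 < n := by rw [hn]; exact AddMonoid.ExponentExists.exponent_pos hex
  have hnB : n ≤ B := by
    rw [hn, ← hz₀, ← AddSubgroup.addOrderOf_coe]
    exact key _ ((hS _).1 z₀.2).1 ((hS _).1 z₀.2).2
  obtain ⟨h1, h2⟩ := quot_card (g := g) (Γ := Γ) F.fin (n := n) hn0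
    (fun i m hm => hF.bas i m hm)
  rw [← hd] at h2
  have hsub : {z : (∀ i, Fin (g i) → V i) ⧸ Γ | (∀ σ : H, a σ z = z) ∧ IsOfFinAddOrder z} ⊆
      {z : (∀ i, Fin (g i) → V i) ⧸ Γ | n • z = 0} := by
    intro z hz
    have h3 := AddMonoid.exponent_nsmul_eq_zero (⟨z, (hS z).2 hz⟩ : S)
    rw [← hn] at h3
    exact congrArg Subtype.val h3
  exact ⟨key, h1.subset hsub, ((Set.ncard_le_ncard hsub h1).trans h2).trans
    (Nat.pow_le_pow_left hnB _)⟩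

end Pool.Agent.E8helper76.UB
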